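import Mathlib
import Pool.Agent.Helper83.CakeDefs

set_option autoImplicit false

open MeasureTheory Set

namespace Pool.Agent.Helper95.CK.ContiguousOld

open Pool.Agent.Helper83.Cake

/-- `f` is uniform on an interval: `f` is the indicator function of a closed interval `[a, b]`
with `a < b`. -/
def IntervalUniform (f : Density) : Prop :=
  ∃ a b : unitInterval, a < b ∧ f.1 = (Icc a b).indicator (fun _ => (1 : ℝ))

/-! ### two interacting agents on the left half of the cake -/

/-- a nondegenerate closed interval of the left half of the cake -/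
structure Iv where
  a : unitInterval
  b : unitInterval
  lt : a < b
  le : (b : ℝ) ≤ 1 / 2

/-- the set of the interval -/
def Iv.set (C : Iv) : Set unitInterval := Icc C.a C.b

lemma Iv.meas (C : Iv) : MeasurableSet C.set := measurableSet_Icc

lemma Iv.vol (C : Iv) : volume.real C.set = (C.b : ℝ) - C.a := by
  have h : (C.a : ℝ) < C.b := C.lt
  rw [Iv.set, Measure.real, unitInterval.volume_Icc, ENNReal.toReal_ofReal (by linarith)]

/-- the pieces of two agents with contiguous pieces at the left end of the cake -/
structure Sys (A B : Iv → Iv → Set unitInterval) : Prop where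
  ocA : ∀ C D, (A C D).OrdConnected
  ocB : ∀ C D, (B C D).OrdConnected
  disj : ∀ C D, Disjoint (A C D) (B C D)
  low : ∀ C D x y, x ∈ A C D ∪ B C D → y ≤ x → y ∈ A C D ∪ B C D
  posA : ∀ C D, 0 < volume.real (A C D ∩ C.set)
  posB : ∀ C D, 0 < volume.real (B C D ∩ D.set)
  icA : ∀ C C' D, volume.real (A C' D ∩ C.set) ≤ volume.real (A C D ∩ C.set)
  icB : ∀ C D D', volume.real (B C D' ∩ D.set) ≤ volume.real (B C D ∩ D.set)

lemma Sys.swap {A B : Iv → Iv → Set unitInterval} (h : Sys A B) :
    Sys (fun C D => B D C) (fun C D => A D C) where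
  ocA C D := h.ocB D C
  ocB C D := h.ocA D C
  disj C D := (h.disj D C).symm
  low C D x y hx hy := by
    rw [union_comm] at hx ⊢
    exact h.low D C x y hx hy
  posA C D := h.posB D C
  posB C D := h.posA D C
  icA C C' D := h.icB D C C'
  icB C D D' := h.icA D D' C

/-- every point of `X` is to the left of every point of `Y` -/
def Before (X Y : Set unitInterval) : Prop := ∀ x ∈ X, ∀ y ∈ Y, x < y

lemma before_or {X Y : Set unitInterval} (hX : X.OrdConnected) (hY : Y.OrdConnected)
    (hd : Disjoint X Y) (nX : X.Nonempty) (nY : Y.Nonempty) : Before X Y ∨ Before Y X := by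
  obtain ⟨x0, hx0⟩ := nX
  obtain ⟨y0, hy0⟩ := nY
  have hne : ∀ x ∈ X, ∀ y ∈ Y, x ≠ y := by
    intro x hx y hy e
    exact (disjoint_left.1 hd hx) (e ▸ hy)
  have key : ∀ x ∈ X, ∀ y ∈ Y, ∀ x' ∈ X, ∀ y' ∈ Y, x < y → ¬ y' < x' := by
    intro x hx y hy x' hx' y' hy' h1 h2
    rcases lt_or_ge y x' with h3 | h3
    · exact disjoint_left.1 hd (hX.out hx hx' ⟨h1.le, h3.le⟩) hy
    · exact disjoint_left.1 hd hx' (hY.out hy' hy ⟨h2.le, h3⟩)
  rcases lt_or_gt_of_ne (hne x0 hx0 y0 hy0) with h | h
  · left
    intro x hx y hy
    rcases lt_or_gt_of_ne (hne x hx y hy) with h' | h'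
    · exact h'
    · exact absurd h' (key x0 hx0 y0 hy0 x hx y hy h)
  · right
    intro y hy x hx
    rcases lt_or_gt_of_ne (hne x hx y hy) with h' | h'
    · exact absurd h (key x hx y hy x0 hx0 y0 hy0 h')
    · exact h'

lemma nonempty_of_pos {X Y : Set unitInterval} (h : 0 < volume.real (X ∩ Y)) : X.Nonempty := by
  by_contra hX
  rw [not_nonempty_iff_eq_empty] at hX
  rw [hX, empty_inter, measureReal_empty] at h
  exact lt_irrefl _ h

lemma Sys.order {A B : Iv → Iv → Set unitInterval} (h : Sys A B) (C D : Iv) :
    Before (A C D) (B C D) ∨ Before (B C D) (A C D) :=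
  before_or (h.ocA C D) (h.ocB C D) (h.disj C D) (nonempty_of_pos (h.posA C D))
    (nonempty_of_pos (h.posB C D))

/-- the first of the two pieces is an initial segment -/
lemma Sys.lowA {A B : Iv → Iv → Set unitInterval} (h : Sys A B) {C D : Iv}
    (hb : Before (A C D) (B C D)) {x y : unitInterval} (hx : x ∈ A C D) (hy : y ≤ x) :
    y ∈ A C D := by
  rcases h.low C D x y (Or.inl hx) hy with h1 | h1
  · exact h1
  · exact absurd (hb x hx y h1) (not_lt.2 hy)

lemma Sys.lowB {A B : Iv → Iv → Set unitInterval} (h : Sys A B) {C D : Iv}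
    (hb : Before (B C D) (A C D)) {x y : unitInterval} (hx : x ∈ B C D) (hy : y ≤ x) :
    y ∈ B C D := by
  rcases h.low C D x y (Or.inr hx) hy with h1 | h1
  · exact absurd (hb x hx y h1) (not_lt.2 hy)
  · exact h1

lemma sum_le {X Y Z : Set unitInterval} (hX : X.OrdConnected) (hd : Disjoint X Y)
    (hZ : MeasurableSet Z) :
    volume.real (X ∩ Z) + volume.real (Y ∩ Z) ≤ volume.real Z := by
  rw [← measureReal_union' (hd.mono inter_subset_left inter_subset_left)
    (hX.measurableSet.inter hZ)]
  exact measureReal_mono (union_subset inter_subset_right inter_subset_right)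

/-- Inside every interval there is an interval such that at no profile `(D, D)` with `D` inside it
the first agent has the first piece. -/
lemma half {A B : Iv → Iv → Set unitInterval} (h : Sys A B) (C : Iv) :
    ∃ J : Iv, J.set ⊆ C.set ∧ ∀ D : Iv, D.set ⊆ J.set → ¬ Before (A D D) (B D D) := by
  have hab : (C.a : ℝ) < C.b := C.lt
  obtain ⟨η, hη⟩ : ∃ η : ℝ, η = volume.real (A C C ∩ C.set) := ⟨_, rfl⟩
  have hη0 : 0 < η := by rw [hη]; exact h.posA C C
  have hsum := sum_le (Y := B C C) (h.ocA C C) (h.disj C C) C.meas
  rw [C.vol, ← hη] at hsum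
  have hηle : η ≤ (C.b : ℝ) - C.a := by
    have := measureReal_nonneg (μ := (volume : Measure unitInterval)) (s := B C C ∩ C.set)
    linarith
  have hz01 : (C.b : ℝ) - η / 2 ∈ unitInterval := by
    refine ⟨?_, ?_⟩
    · have := C.a.2.1
      linarith
    · have := C.b.2.2
      linarith
  obtain ⟨z, hz⟩ : ∃ z : unitInterval, (z : ℝ) = C.b - η / 2 := ⟨⟨_, hz01⟩, rfl⟩
  have haz : C.a < z := by
    rw [← Subtype.coe_lt_coe, hz]
    linarith
  have hzb : z < C.b := by
    rw [← Subtype.coe_lt_coe, hz]
    linarith
  -- if the second agent has the first piece, then this piece does not reach `z`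
  have claimZ : ∀ D : Iv, Before (B C D) (A C D) → ∀ y ∈ B C D, y < z := by
    intro D hD y hy
    by_contra hcon
    rw [not_lt] at hcon
    have hsub : Icc C.a z ⊆ B C D ∩ C.set := by
      intro x hx
      exact ⟨h.lowB hD hy (hx.2.trans hcon), hx.1, hx.2.trans hzb.le⟩
    have h1 : volume.real (Icc C.a z) ≤ volume.real (B C D ∩ C.set) := measureReal_mono hsub
    have h2 : volume.real (Icc C.a z) = (z : ℝ) - C.a := by
      have h3 : (C.a : ℝ) < z := haz
      rw [Measure.real, unitInterval.volume_Icc, ENNReal.toReal_ofReal (by linarith)]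
    have h4 := h.icB C C D
    linarith
  let Cp : Iv := ⟨z, C.b, hzb, C.le⟩
  have hpos := h.posB C Cp
  have hoc : (B C Cp ∩ Cp.set).OrdConnected := (h.ocB C Cp).inter ordConnected_Icc
  have hnt : (B C Cp ∩ Cp.set).Nontrivial := by
    rw [← not_subsingleton_iff]
    intro hs
    have : volume.real (B C Cp ∩ Cp.set) = 0 := by
      rw [Measure.real, hs.measure_zero, ENNReal.toReal_zero]
    linarith
  obtain ⟨u, hu, v, hv, huv⟩ := hnt.exists_lt
  refine ⟨⟨u, v, huv, ?_⟩, ?_, ?_⟩
  · have h1 : (v : ℝ) ≤ C.b := hv.2.2
    exact h1.trans C.le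
  · intro x hx
    exact ⟨haz.le.trans (hu.2.1.trans hx.1), hx.2.trans hv.2.2⟩
  · intro D hD hcol
    have hDX : D.set ⊆ B C Cp ∩ Cp.set := fun x hx => hoc.out hu hv (hD hx)
    have hDC : D.set ⊆ C.set := fun x hx => ⟨haz.le.trans (hDX hx).2.1, (hDX hx).2.2⟩
    -- the second agent gets all of `D` at the profile `(C, D)`
    have hstar : volume.real D.set ≤ volume.real (B C D ∩ D.set) := by
      have h1 := h.icB C D Cp
      have h2 : B C Cp ∩ D.set = D.set := inter_eq_right.2 fun x hx => (hDX hx).1
      rwa [h2] at h1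
    rcases h.order C D with hfirst | hfirst
    · have h1 := sum_le (Y := B C D) (h.ocA C D) (h.disj C D) D.meas
      have h2 : volume.real (A C D ∩ D.set) = 0 :=
        le_antisymm (by linarith) measureReal_nonneg
      have h3 := h.posA D D
      have hsub : A C D ⊆ A D D := by
        intro x hx
        by_contra hx'
        have hsub' : A D D ∩ D.set ⊆ A C D ∩ D.set := by
          intro y hy
          refine ⟨h.lowA hfirst hx ?_, hy.2⟩
          by_contra hyx
          exact hx' (h.lowA hcol hy.1 (not_le.1 hyx).le)
        have := measureReal_mono (μ := (volume : Measure unitInterval)) hsub'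
        linarith
      have h4 : volume.real (A D D ∩ D.set) ≤
          volume.real ((A D D ∩ D.set) \ A C D) + volume.real (A C D ∩ D.set) := by
        refine (measureReal_mono ?_).trans (measureReal_union_le _ _)
        intro y hy
        by_cases hyA : y ∈ A C D
        · exact Or.inr ⟨hyA, hy.2⟩
        · exact Or.inl ⟨hy, hyA⟩
      have h5 : volume.real (A C D ∩ C.set) + volume.real ((A D D ∩ D.set) \ A C D) ≤
          volume.real (A D D ∩ C.set) := by
        rw [← measureReal_union' ?_ ((h.ocA C D).measurableSet.inter C.meas)]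
        · refine measureReal_mono (union_subset ?_ ?_)
          · exact inter_subset_inter_left _ hsub
          · intro y hy
            exact ⟨hy.1.1, hDC hy.1.2⟩
        · rw [disjoint_left]
          intro y hy hy'
          exact hy'.2 hy.1
      have h6 := h.icA C D D
      linarith
    · have h1 : B C D ∩ D.set = ∅ := by
        rw [eq_empty_iff_forall_notMem]
        intro y hy
        have h2 := claimZ D hfirst y hy.1
        exact absurd h2 (not_lt.2 (hDX hy.2).2.1)
      have h2 := h.posB C D
      rw [h1, measureReal_empty] at h2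
      exact lt_irrefl _ h2

theorem no_sys {A B : Iv → Iv → Set unitInterval} (h : Sys A B) : False := by
  have h0 : (0 : unitInterval) < ⟨1 / 2, by norm_num, by norm_num⟩ := by
    rw [← Subtype.coe_lt_coe]
    norm_num
  obtain ⟨J, -, hJ⟩ := half h ⟨0, ⟨1 / 2, by norm_num, by norm_num⟩, h0, le_refl _⟩
  obtain ⟨J', hJ'J, hJ'⟩ := half h.swap J
  rcases h.order J' J' with h1 | h1
  · exact hJ J' hJ'J h1
  · exact hJ' J' (subset_refl _) h1

/-! ### the mechanism -/

/-- the density which is uniform on `[a, b]` -/
noncomputable def unif (a b : unitInterval) (h : a < b) : Density :=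
  ⟨(Icc a b).indicator (fun _ => (1 : ℝ)), by
    refine ⟨fun x => indicator_nonneg (fun _ _ => zero_le_one) x, ?_, ?_⟩
    · refine ⟨{Iio a, Icc a b, Ioi b}, by simp, ?_, ?_, ?_⟩
      · rintro J (rfl | rfl | rfl)
        · exact ordConnected_Iio
        · exact ordConnected_Icc
        · exact ordConnected_Ioi
      · rw [eq_univ_iff_forall]
        intro x
        rcases lt_or_ge x a with h1 | h1
        · exact ⟨Iio a, by simp, h1⟩
        · rcases le_or_gt x b with h2 | h2
          · exact ⟨Icc a b, by simp, h1, h2⟩
          · exact ⟨Ioi b, by simp, h2⟩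
      · rintro J (rfl | rfl | rfl)
        · exact ⟨0, fun x hx => indicator_of_notMem (fun h' => not_lt.2 h'.1 hx) _⟩
        · exact ⟨1, fun x hx => indicator_of_mem hx _⟩
        · exact ⟨0, fun x hx => indicator_of_notMem (fun h' => not_lt.2 h'.2 hx) _⟩
    · have h' : (a : ℝ) < b := h
      rw [integral_indicator_const _ measurableSet_Icc, Measure.real, unitInterval.volume_Icc,
        ENNReal.toReal_ofReal (by linarith), smul_eq_mul]
      linarith⟩

lemma intervalUniform_unif (a b : unitInterval) (h : a < b) : IntervalUniform (unif a b h) :=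
  ⟨a, b, h, rfl⟩

lemma value_unif (a b : unitInterval) (h : a < b) (Z : Set unitInterval) :
    value (unif a b h) Z = volume.real (Z ∩ Icc a b) := by
  unfold value unif
  rw [integral_indicator_const _ measurableSet_Icc, smul_eq_mul, mul_one,
    measureReal_restrict_apply measurableSet_Icc, inter_comm]

/-- the density of the agents other than `p` and `q` -/
noncomputable def far : Density :=
  unif ⟨3 / 4, by norm_num, by norm_num⟩ 1 (by rw [← Subtype.coe_lt_coe]; norm_num)

/-- the profile with densities uniform on `C` and `D` for `p` and `q` -/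
noncomputable def prof {n : ℕ} (p q : Fin n) (C D : Iv) : Fin n → Density :=
  fun i => if i = p then unif C.a C.b C.lt else if i = q then unif D.a D.b D.lt else far

lemma prof_uniform {n : ℕ} (p q : Fin n) (C D : Iv) (i : Fin n) :
    IntervalUniform (prof p q C D i) := by
  unfold prof
  split_ifs
  · exact intervalUniform_unif _ _ _
  · exact intervalUniform_unif _ _ _
  · exact intervalUniform_unif _ _ _

lemma prof_p {n : ℕ} (p q : Fin n) (C D : Iv) : prof p q C D p = unif C.a C.b C.lt := by
  simp [prof]

lemma prof_q {n : ℕ} {p q : Fin n} (hpq : p ≠ q) (C D : Iv) :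
    prof p q C D q = unif D.a D.b D.lt := by
  simp [prof, hpq.symm]

lemma prof_other {n : ℕ} {p q k : Fin n} (hp : k ≠ p) (hq : k ≠ q) (C D : Iv) :
    prof p q C D k = far := by
  simp [prof, hp, hq]

lemma update_p {n : ℕ} (p q : Fin n) (C C' D : Iv) :
    Function.update (prof p q C D) p (unif C'.a C'.b C'.lt) = prof p q C' D := by
  funext i
  unfold Function.update prof
  by_cases h : i = p
  · subst h
    simp
  · simp [h]

lemma update_q {n : ℕ} {p q : Fin n} (hpq : p ≠ q) (C D D' : Iv) :
    Function.update (prof p q C D) q (unif D'.a D'.b D'.lt) = prof p q C D' := by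
  funext i
  unfold Function.update prof
  by_cases h : i = q
  · subst h
    simp [hpq.symm]
  · simp [h]

/-- **Contiguous pieces.** Let `M` be a mechanism for `n` agents which divides the whole cake and
always gives every agent an interval. If two different agents `p` and `q` can never gain by a
misreport, as long as all densities and reports are uniform on intervals, then there is a profile
of densities which are uniform on intervals such that some agent receives a piece of value `0`. -/
theorem result {n : ℕ} (M : (Fin n → Density) → Fin n → Set unitInterval)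
    (hM : IsMechanism M) (hC : ∀ d i, (M d i).OrdConnected) (p q : Fin n) (hpq : p ≠ q)
    (htr : ∀ d : Fin n → Density, (∀ i, IntervalUniform (d i)) →
      ∀ f : Density, IntervalUniform f →
        value (d p) (M (Function.update d p f) p) ≤ value (d p) (M d p) ∧
        value (d q) (M (Function.update d q f) q) ≤ value (d q) (M d q)) :
    ∃ d : Fin n → Density, (∀ i, IntervalUniform (d i)) ∧ ∃ i, value (d i) (M d i) = 0 := by
  by_contra hcon
  have hpos : ∀ d : Fin n → Density, (∀ i, IntervalUniform (d i)) →
      ∀ i, 0 < value (d i) (M d i) := by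
    intro d hd i
    refine lt_of_le_of_ne (value_nonneg _ _) fun h => hcon ⟨d, hd, i, h.symm⟩
  have posA : ∀ C D : Iv, 0 < volume.real (M (prof p q C D) p ∩ C.set) := by
    intro C D
    have h1 := hpos (prof p q C D) (prof_uniform p q C D) p
    rwa [prof_p, value_unif] at h1
  have posB : ∀ C D : Iv, 0 < volume.real (M (prof p q C D) q ∩ D.set) := by
    intro C D
    have h1 := hpos (prof p q C D) (prof_uniform p q C D) q
    rwa [prof_q hpq, value_unif] at h1
  -- the pieces of `p` and `q` are to the left of the other pieces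
  have hleft : ∀ (C D : Iv) (i : Fin n), (∃ a ∈ M (prof p q C D) i, (a : ℝ) ≤ 1 / 2) →
      ∀ k, k ≠ p → k ≠ q → i ≠ k → Before (M (prof p q C D) i) (M (prof p q C D) k) := by
    intro C D i ⟨a, ha, ha'⟩ k hkp hkq hik
    have h1 := hpos (prof p q C D) (prof_uniform p q C D) k
    rw [prof_other hkp hkq] at h1
    unfold far at h1
    rw [value_unif] at h1
    obtain ⟨e, he⟩ : (M (prof p q C D) k ∩
        Icc (⟨3 / 4, by norm_num, by norm_num⟩ : unitInterval) 1).Nonempty := by
      by_contra hE
      rw [not_nonempty_iff_eq_empty] at hE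
      rw [hE, measureReal_empty] at h1
      exact lt_irrefl _ h1
    have hae : a < e := by
      have h2 : (3 / 4 : ℝ) ≤ e := he.2.1
      rw [← Subtype.coe_lt_coe]
      linarith
    rcases before_or (hC (prof p q C D) i) (hC (prof p q C D) k) (hM.disj _ i k hik) ⟨a, ha⟩
      ⟨e, he.1⟩ with h2 | h2
    · exact h2
    · exact absurd (h2 e he.1 a ha) (not_lt.2 hae.le)
  have hwit : ∀ (C D : Iv) (i : Fin n), i = p ∨ i = q →
      ∃ a ∈ M (prof p q C D) i, (a : ℝ) ≤ 1 / 2 := by
    intro C D i hi
    rcases hi with rfl | rfl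
    · obtain ⟨a, ha⟩ : (M (prof i q C D) i ∩ C.set).Nonempty := by
        by_contra hE
        rw [not_nonempty_iff_eq_empty] at hE
        have := posA C D
        rw [hE, measureReal_empty] at this
        exact lt_irrefl _ this
      have h2 : (a : ℝ) ≤ C.b := ha.2.2
      exact ⟨a, ha.1, h2.trans C.le⟩
    · obtain ⟨a, ha⟩ : (M (prof p i C D) i ∩ D.set).Nonempty := by
        by_contra hE
        rw [not_nonempty_iff_eq_empty] at hE
        have := posB C D
        rw [hE, measureReal_empty] at this
        exact lt_irrefl _ this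
      have h2 : (a : ℝ) ≤ D.b := ha.2.2
      exact ⟨a, ha.1, h2.trans D.le⟩
  refine no_sys (A := fun C D => M (prof p q C D) p) (B := fun C D => M (prof p q C D) q)
    ⟨fun C D => hC _ _, fun C D => hC _ _, fun C D => hM.disj _ _ _ hpq, ?_, posA, posB, ?_, ?_⟩
  · intro C D x y hx hy
    obtain ⟨i, hi, hxi⟩ : ∃ i, (i = p ∨ i = q) ∧ x ∈ M (prof p q C D) i := by
      rcases hx with hx | hx
      · exact ⟨p, Or.inl rfl, hx⟩
      · exact ⟨q, Or.inr rfl, hx⟩
    have hy' : y ∈ ⋃ k, M (prof p q C D) k := by
      rw [hM.cover]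
      exact mem_univ y
    obtain ⟨k, hk⟩ := mem_iUnion.1 hy'
    by_cases hkp : k = p
    · exact Or.inl (hkp ▸ hk)
    by_cases hkq : k = q
    · exact Or.inr (hkq ▸ hk)
    have hik : i ≠ k := by
      rintro rfl
      rcases hi with h | h
      · exact hkp h
      · exact hkq h
    exact absurd (hleft C D i (hwit C D i hi) k hkp hkq hik x hxi y hk) (not_lt.2 hy)
  · intro C C' D
    have h1 := (htr (prof p q C D) (prof_uniform p q C D) (unif C'.a C'.b C'.lt)
      (intervalUniform_unif _ _ _)).1
    rwa [update_p, prof_p, value_unif, value_unif] at h1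
  · intro C D D'
    have h1 := (htr (prof p q C D) (prof_uniform p q C D) (unif D'.a D'.b D'.lt)
      (intervalUniform_unif _ _ _)).2
    rwa [update_q hpq, prof_q hpq, value_unif, value_unif] at h1

end Pool.Agent.Helper95.CK.ContiguousOld
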