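import Mathlib
import Pool.Agent.Helper83.CakeDefs

set_option autoImplicit false

open MeasureTheory Set

namespace Pool.Agent.Helper95.CK

open Pool.Agent.Helper83.Cake

/-- `M` is a mechanism for `n` agents in which part of the cake may be thrown away: for every
profile `d` the pieces `M d i` are finite unions of intervals and pairwise disjoint. -/
structure IsMechanismD {n : ℕ} (M : (Fin n → Density) → Fin n → Set unitInterval) : Prop where
  piece : ∀ d i, IsPiece (M d i)
  disj : ∀ d i j, i ≠ j → Disjoint (M d i) (M d j)

/-- Agent `i` never gains by a misreport. -/
def TruthfulFor {n : ℕ} (M : (Fin n → Density) → Fin n → Set unitInterval) (i : Fin n) : Prop :=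
  ∀ (d : Fin n → Density) (f : Density),
    value (d i) (M (Function.update d i f) i) ≤ value (d i) (M d i)

/-- Two profiles have the same joint distribution: for all values `v i` the set of the points at
which the density of every agent `i` is `v i` has the same measure for both profiles. -/
def SameLaw {n : ℕ} (d d' : Fin n → Density) : Prop :=
  ∀ v : Fin n → ℝ, volume {x : unitInterval | ∀ i, (d i).1 x = v i} =
    volume {x : unitInterval | ∀ i, (d' i).1 x = v i}

/-- The value that agent `i` gets depends only on the joint distribution of the densities. -/
def PositionOblivious {n : ℕ} (M : (Fin n → Density) → Fin n → Set unitInterval) (i : Fin n) :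
    Prop :=
  ∀ d d' : Fin n → Density, SameLaw d d' → value (d i) (M d i) = value (d' i) (M d' i)

/-- the measure of a set of points of the cake -/
noncomputable abbrev vol (Z : Set unitInterval) : ℝ := volume.real Z

/-- all fibres of the labelling `ν` are pieces -/
def IsLab {ι : Type} (ν : unitInterval → ι) : Prop := ∀ a, IsPiece (ν ⁻¹' {a})

end Pool.Agent.Helper95.CK
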