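import Mathlib
import Pool.Agent.Helper95.CK.Defs

set_option autoImplicit false

open MeasureTheory Set

namespace Pool.Agent.Helper95.CK

open Pool.Agent.Helper83.Cake

lemma isPiece_empty : IsPiece ∅ :=
  ⟨∅, finite_empty, by simp, by simp⟩

lemma isPiece_of_ordConnected {Z : Set unitInterval} (h : Z.OrdConnected) : IsPiece Z :=
  ⟨{Z}, finite_singleton _, by simpa using h, by simp⟩

lemma isPiece_univ : IsPiece univ := isPiece_of_ordConnected ordConnected_univ

lemma isPiece_inter {Z W : Set unitInterval} (hZ : IsPiece Z) (hW : IsPiece W) :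
    IsPiece (Z ∩ W) := by
  obtain ⟨S, hS, hSo, rfl⟩ := hZ
  obtain ⟨T, hT, hTo, rfl⟩ := hW
  refine ⟨image2 (fun A B => A ∩ B) S T, hS.image2 _ hT, ?_, ?_⟩
  · rintro _ ⟨A, hA, B, hB, rfl⟩
    exact (hSo A hA).inter (hTo B hB)
  · ext x
    simp only [mem_inter_iff, mem_sUnion, mem_image2]
    constructor
    · rintro ⟨⟨A, hA, hxA⟩, ⟨B, hB, hxB⟩⟩
      exact ⟨A ∩ B, ⟨A, hA, B, hB, rfl⟩, hxA, hxB⟩
    · rintro ⟨_, ⟨A, hA, B, hB, rfl⟩, hxA, hxB⟩
      exact ⟨⟨A, hA, hxA⟩, ⟨B, hB, hxB⟩⟩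

lemma isPiece_union {Z W : Set unitInterval} (hZ : IsPiece Z) (hW : IsPiece W) :
    IsPiece (Z ∪ W) := by
  obtain ⟨S, hS, hSo, rfl⟩ := hZ
  obtain ⟨T, hT, hTo, rfl⟩ := hW
  refine ⟨S ∪ T, hS.union hT, ?_, ?_⟩
  · rintro J (hJ | hJ)
    · exact hSo J hJ
    · exact hTo J hJ
  · rw [sUnion_union]

/-- The complement of an interval is a piece. -/
lemma isPiece_compl_of_ordConnected {Z : Set unitInterval} (h : Z.OrdConnected) :
    IsPiece Zᶜ := by
  by_cases hne : Z.Nonempty
  · have e : Zᶜ = {x | ∀ z ∈ Z, x < z} ∪ {x | ∀ z ∈ Z, z < x} := by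
      ext x
      simp only [mem_compl_iff, mem_union, mem_ofPred_eq]
      constructor
      · intro hx
        by_contra hcon
        push Not at hcon
        obtain ⟨⟨z, hz, hzx⟩, ⟨z', hz', hxz'⟩⟩ := hcon
        exact hx (h.out hz hz' ⟨hzx, hxz'⟩)
      · rintro (hx | hx) hxZ
        · exact lt_irrefl _ (hx x hxZ)
        · exact lt_irrefl _ (hx x hxZ)
    rw [e]
    refine isPiece_union (isPiece_of_ordConnected ?_) (isPiece_of_ordConnected ?_)
    · exact ⟨fun a _ b hb c hc z hz => lt_of_le_of_lt hc.2 (hb z hz)⟩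
    · exact ⟨fun a ha b _ c hc z hz => lt_of_lt_of_le (ha z hz) hc.1⟩
  · rw [not_nonempty_iff_eq_empty] at hne
    rw [hne, compl_empty]
    exact isPiece_univ

lemma isPiece_compl {Z : Set unitInterval} (hZ : IsPiece Z) : IsPiece Zᶜ := by
  obtain ⟨S, hS, hSo, rfl⟩ := hZ
  induction S, hS using Set.Finite.induction_on with
  | empty => simpa using isPiece_univ
  | @insert A S hA hS ih =>
    rw [sUnion_insert, compl_union]
    exact isPiece_inter (isPiece_compl_of_ordConnected (hSo A (mem_insert _ _)))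
      (ih fun J hJ => hSo J (mem_insert_of_mem _ hJ))

lemma isPiece_diff {Z W : Set unitInterval} (hZ : IsPiece Z) (hW : IsPiece W) :
    IsPiece (Z \ W) := by
  rw [sdiff_eq]
  exact isPiece_inter hZ (isPiece_compl hW)

lemma isPiece_iUnion {ι : Type} [Finite ι] {Z : ι → Set unitInterval} (h : ∀ i, IsPiece (Z i)) :
    IsPiece (⋃ i, Z i) := by
  choose S hS hSo hSe using h
  refine ⟨⋃ i, S i, finite_iUnion hS, ?_, ?_⟩
  · intro J hJ
    obtain ⟨i, hi⟩ := mem_iUnion.1 hJ
    exact hSo i J hi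
  · rw [sUnion_iUnion]
    exact iUnion_congr hSe

/-- Every piece has a subpiece of any prescribed smaller measure. -/
lemma exists_subpiece {Z : Set unitInterval} (hZ : IsPiece Z) {c : ℝ} (h0 : 0 ≤ c)
    (h1 : c ≤ vol Z) : ∃ W, W ⊆ Z ∧ IsPiece W ∧ vol W = c := by
  have hm : MeasurableSet Z := hZ.measurableSet
  have hlip : ∀ s t : unitInterval, s ≤ t →
      vol (Z ∩ Iic t) ≤ vol (Z ∩ Iic s) + (t.1 - s.1) := by
    intro s t hst
    have hsub : Z ∩ Iic t ⊆ (Z ∩ Iic s) ∪ Ioc s t := by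
      rintro x ⟨hxZ, hxt⟩
      rcases le_or_gt x s with hxs | hxs
      · exact Or.inl ⟨hxZ, hxs⟩
      · exact Or.inr ⟨hxs, hxt⟩
    calc vol (Z ∩ Iic t) ≤ vol ((Z ∩ Iic s) ∪ Ioc s t) := measureReal_mono hsub
      _ ≤ vol (Z ∩ Iic s) + vol (Ioc s t) := measureReal_union_le _ _
      _ = vol (Z ∩ Iic s) + (t.1 - s.1) := by
          congr 1
          rw [vol, Measure.real, unitInterval.volume_Ioc,
            ENNReal.toReal_ofReal (sub_nonneg.2 (by exact_mod_cast hst))]
  have hmono : ∀ s t : unitInterval, s ≤ t → vol (Z ∩ Iic s) ≤ vol (Z ∩ Iic t) := by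
    intro s t hst
    exact measureReal_mono (inter_subset_inter_right _ (Iic_subset_Iic.2 hst))
  have hcont : Continuous fun t : unitInterval => vol (Z ∩ Iic t) := by
    refine (LipschitzWith.of_dist_le_mul (K := 1) ?_).continuous
    intro s t
    rw [NNReal.coe_one, one_mul, Real.dist_eq, Subtype.dist_eq, Real.dist_eq]
    rcases le_total s t with hst | hst
    · have h1 := hlip s t hst
      have h2 := hmono s t hst
      have h3 : (s.1 : ℝ) ≤ t.1 := by exact_mod_cast hst
      rw [abs_sub_comm, abs_of_nonneg (by linarith), abs_sub_comm, abs_of_nonneg (by linarith)]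
      linarith
    · have h1 := hlip t s hst
      have h2 := hmono t s hst
      have h3 : (t.1 : ℝ) ≤ s.1 := by exact_mod_cast hst
      rw [abs_of_nonneg (by linarith), abs_of_nonneg (by linarith)]
      linarith
  have hzero : vol (Z ∩ Iic 0) ≤ c := by
    refine le_trans ?_ h0
    calc vol (Z ∩ Iic 0) ≤ vol (Iic 0) := measureReal_mono inter_subset_right
      _ = 0 := by rw [vol, Measure.real, unitInterval.volume_Iic]; simp
      _ ≤ 0 := le_refl _
  have hone : c ≤ vol (Z ∩ Iic 1) := by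
    have e : Z ∩ Iic 1 = Z := by
      ext x
      simp only [mem_inter_iff, mem_Iic, and_iff_left_iff_imp]
      exact fun _ => unitInterval.le_one'
    rw [e]
    exact h1
  obtain ⟨t, ht⟩ := mem_range_of_exists_le_of_exists_ge hcont ⟨0, hzero⟩ ⟨1, hone⟩
  exact ⟨Z ∩ Iic t, inter_subset_left,
    isPiece_inter hZ (isPiece_of_ordConnected ordConnected_Iic), ht⟩

end Pool.Agent.Helper95.CK
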