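import Mathlib
import Pool.Agent.Helper95.CK.Piece

set_option autoImplicit false

open MeasureTheory Set

namespace Pool.Agent.Helper95.CK

open Pool.Agent.Helper83.Cake

/-- The value of a set for such a density. -/
lemma setIntegral_lab {κ : Type} [Fintype κ] [DecidableEq κ] {μ : unitInterval → κ}
    (hμ : IsLab μ) (v : κ → ℝ) {Z : Set unitInterval} (hZ : MeasurableSet Z) :
    ∫ x in Z, v (μ x) = ∑ c, v c * vol (μ ⁻¹' {c} ∩ Z) := by
  have h1 : (fun x => v (μ x)) = fun x => ∑ c, (μ ⁻¹' {c}).indicator (fun _ => v c) x := by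
    funext x
    rw [Finset.sum_eq_single (μ x)]
    · rw [indicator_of_mem]
      exact rfl
    · intro c _ hc
      rw [indicator_of_notMem]
      intro h
      exact hc (Eq.symm h)
    · intro h
      exact absurd (Finset.mem_univ _) h
  have hm : ∀ c, MeasurableSet (μ ⁻¹' {c}) := fun c => (hμ c).measurableSet
  rw [h1, integral_finsetSum]
  · refine Finset.sum_congr rfl fun c _ => ?_
    rw [integral_indicator_const _ (hm c), smul_eq_mul, measureReal_restrict_apply (hm c),
      mul_comm]
  · intro c _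
    exact (integrable_const _).indicator (hm c)

/-- A labelling with values on the labels is a density. -/
lemma isDensity_lab {κ : Type} [Fintype κ] [DecidableEq κ] {μ : unitInterval → κ} (hμ : IsLab μ)
    {v : κ → ℝ} (hv : ∀ c, 0 ≤ v c) (hp : ∃ c, 0 < v c ∧ 0 < vol (μ ⁻¹' {c})) :
    IsDensity (fun x => v (μ x)) := by
  refine ⟨fun x => hv _, ?_, ?_⟩
  · choose S hS1 hS2 hS3 using hμ
    refine ⟨⋃ c, S c, Set.finite_iUnion hS1, ?_, ?_, ?_⟩
    · intro J hJ
      obtain ⟨c, hc⟩ := mem_iUnion.1 hJ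
      exact hS2 c J hc
    · refine eq_univ_of_forall fun x => ?_
      have h1 : x ∈ μ ⁻¹' {μ x} := rfl
      rw [hS3 (μ x)] at h1
      obtain ⟨J, hJ, hxJ⟩ := h1
      exact ⟨J, mem_iUnion.2 ⟨μ x, hJ⟩, hxJ⟩
    · intro J hJ
      obtain ⟨c, hc⟩ := mem_iUnion.1 hJ
      refine ⟨v c, fun x hx => ?_⟩
      have h1 : x ∈ μ ⁻¹' {c} := by
        rw [hS3 c]
        exact ⟨J, hc, hx⟩
      have h2 : μ x = c := h1
      rw [h2]
  · have h1 := setIntegral_lab hμ v MeasurableSet.univ
    rw [Measure.restrict_univ] at h1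
    rw [h1]
    obtain ⟨c, hc1, hc2⟩ := hp
    refine Finset.sum_pos' (fun c _ => mul_nonneg (hv c) measureReal_nonneg)
      ⟨c, Finset.mem_univ _, ?_⟩
    rw [inter_univ]
    exact mul_pos hc1 hc2

/-- the constant density `1` -/
lemma isDensity_one : IsDensity (fun _ => 1) := by
  refine ⟨fun _ => zero_le_one, ⟨{univ}, finite_singleton _, ?_, ?_, ?_⟩, ?_⟩
  · intro J hJ
    rw [mem_singleton_iff.1 hJ]
    exact ordConnected_univ
  · exact sUnion_singleton _
  · intro J _
    exact ⟨1, fun _ _ => rfl⟩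
  · rw [integral_const, probReal_univ, one_smul]
    exact one_pos

/-- the joint distribution of two functions that are given by labellings -/
lemma sameLaw_aux {κ : Type} [Fintype κ] [DecidableEq κ] {μ μ' : unitInterval → κ}
    (hμ : IsLab μ) (hμ' : IsLab μ') (hv : ∀ c, vol (μ ⁻¹' {c}) = vol (μ' ⁻¹' {c}))
    (P : κ → Prop) : volume {x | P (μ x)} = volume {x | P (μ' x)} := by
  classical
  have key : ∀ {ρ : unitInterval → κ}, IsLab ρ →
      volume {x | P (ρ x)} = ∑ c ∈ Finset.univ.filter P, volume (ρ ⁻¹' {c}) := by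
    intro ρ hρ
    have h1 : {x | P (ρ x)} = ⋃ c ∈ Finset.univ.filter P, ρ ⁻¹' {c} := by
      ext x
      simp only [mem_ofPred_eq, mem_iUnion, Finset.mem_filter, Finset.mem_univ, true_and,
        mem_preimage, mem_singleton_iff, exists_prop, exists_eq_right']
    rw [h1, measure_biUnion_finset]
    · intro a _ b _ hab
      exact Disjoint.preimage _ (by simpa using hab)
    · intro c _
      exact (hρ c).measurableSet
  rw [key hμ, key hμ']
  refine Finset.sum_congr rfl fun c _ => ?_
  have h2 := hv c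
  unfold vol Measure.real at h2
  exact (ENNReal.toReal_eq_toReal_iff' (measure_ne_top _ _) (measure_ne_top _ _)).1 h2

/-- pairs of labels -/
lemma isLab_prod {ι κ : Type} {ν : unitInterval → ι} {μ : unitInterval → κ} (hν : IsLab ν)
    (hμ : IsLab μ) : IsLab (fun x => (ν x, μ x)) := by
  rintro ⟨a, b⟩
  have h : (fun x => (ν x, μ x)) ⁻¹' {(a, b)} = ν ⁻¹' {a} ∩ μ ⁻¹' {b} := by
    ext x
    simp only [mem_preimage, mem_singleton_iff, Prod.mk.injEq, mem_inter_iff]
  rw [h]
  exact isPiece_inter (hν a) (hμ b)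

/-- labels that forget something -/
lemma isLab_comp {ι κ : Type} [Finite ι] {ν : unitInterval → ι} (hν : IsLab ν) (φ : ι → κ) :
    IsLab (fun x => φ (ν x)) := by
  classical
  intro b
  have h : (fun x => φ (ν x)) ⁻¹' {b} = ⋃ a, if φ a = b then ν ⁻¹' {a} else ∅ := by
    ext x
    simp only [mem_preimage, mem_singleton_iff, mem_iUnion]
    constructor
    · intro hx
      exact ⟨ν x, by rw [if_pos hx]; exact rfl⟩
    · rintro ⟨a, ha⟩
      by_cases hab : φ a = b
      · rw [if_pos hab] at ha
        have : ν x = a := ha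
        rw [this, hab]
      · rw [if_neg hab] at ha
        exact absurd ha (notMem_empty _)
  rw [h]
  refine isPiece_iUnion fun a => ?_
  split_ifs
  · exact hν a
  · exact isPiece_empty

end Pool.Agent.Helper95.CK
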