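import Mathlib
import Pool.Agent.Helper95.CK.Piece

set_option autoImplicit false

open MeasureTheory Set

namespace Pool.Agent.Helper95.CK

open Pool.Agent.Helper83.Cake

/-- Disjoint subpieces of prescribed measures with small total measure. -/
lemma exists_disj {ι : Type} [DecidableEq ι] (s : Finset ι) {Z : Set unitInterval}
    (hZ : IsPiece Z) (w : ι → ℝ) (hw : ∀ a ∈ s, 0 ≤ w a) (hs : ∑ a ∈ s, w a ≤ vol Z) :
    ∃ P : ι → Set unitInterval, (∀ a, P a ⊆ Z) ∧ (∀ a, IsPiece (P a)) ∧
      (∀ a ∈ s, vol (P a) = w a) ∧ (∀ a ∉ s, P a = ∅) ∧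
      ∀ a b, a ≠ b → Disjoint (P a) (P b) := by
  induction s using Finset.induction_on generalizing Z with
  | empty =>
    exact ⟨fun _ => ∅, fun _ => empty_subset _, fun _ => isPiece_empty, by simp, by simp,
      fun _ _ _ => disjoint_empty _⟩
  | @insert b s hb ih =>
    rw [Finset.sum_insert hb] at hs
    have h0 : 0 ≤ w b := hw b (Finset.mem_insert_self _ _)
    have hnn : 0 ≤ ∑ a ∈ s, w a :=
      Finset.sum_nonneg fun a ha => hw a (Finset.mem_insert_of_mem ha)
    obtain ⟨W, hWZ, hW, hWv⟩ := exists_subpiece hZ h0 (by linarith)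
    have hd : vol (Z \ W) = vol Z - w b := by
      rw [← hWv]
      exact measureReal_sdiff hWZ hW.measurableSet
    obtain ⟨P, h1, h2, h3, h4, h5⟩ := ih (isPiece_diff hZ hW)
      (fun a ha => hw a (Finset.mem_insert_of_mem ha)) (by rw [hd]; linarith)
    refine ⟨Function.update P b W, ?_, ?_, ?_, ?_, ?_⟩
    · intro a
      by_cases hab : a = b
      · subst hab; simpa using hWZ
      · rw [Function.update_of_ne hab]; exact (h1 a).trans sdiff_subset
    · intro a
      by_cases hab : a = b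
      · subst hab; simpa using hW
      · rw [Function.update_of_ne hab]; exact h2 a
    · intro a ha
      by_cases hab : a = b
      · subst hab; simpa using hWv
      · rw [Function.update_of_ne hab]
        exact h3 a ((Finset.mem_insert.1 ha).resolve_left hab)
    · intro a ha
      rw [Finset.mem_insert, not_or] at ha
      rw [Function.update_of_ne ha.1]
      exact h4 a ha.2
    · have key : ∀ a, a ≠ b → Disjoint (P a) W := fun a _ =>
        disjoint_of_subset_left (h1 a) disjoint_sdiff_left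
      intro a c hac
      by_cases hab : a = b
      · subst hab
        rw [Function.update_self, Function.update_of_ne hac.symm]
        exact (key c hac.symm).symm
      · by_cases hcb : c = b
        · subst hcb
          rw [Function.update_self, Function.update_of_ne hac]
          exact key a hac
        · rw [Function.update_of_ne hab, Function.update_of_ne hcb]
          exact h5 a c hac

/-- A piece can be divided into pieces of prescribed measures (induction over the labels; the
points that are left over form a null set and get an arbitrary label). -/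
lemma exists_lab {ι : Type} [Fintype ι] [DecidableEq ι] [Nonempty ι] {Z : Set unitInterval}
    (hZ : IsPiece Z) (w : ι → ℝ) (hw : ∀ a, 0 ≤ w a) (hs : ∑ a, w a = vol Z) :
    ∃ ν : unitInterval → ι, (∀ a, IsPiece (ν ⁻¹' {a} ∩ Z)) ∧ ∀ a, vol (ν ⁻¹' {a} ∩ Z) = w a := by
  classical
  obtain ⟨P, h1, h2, h3, -, h5⟩ := exists_disj Finset.univ hZ w (fun a _ => hw a) hs.le
  obtain ⟨a0⟩ := ‹Nonempty ι›
  -- the rest
  set R : Set unitInterval := Z \ ⋃ a, P a with hR
  have hU : IsPiece (⋃ a, P a) := isPiece_iUnion h2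
  have hRp : IsPiece R := isPiece_diff hZ hU
  have hUv : vol (⋃ a, P a) = ∑ a, w a := by
    rw [vol, measureReal_iUnion_fintype (fun a b hab => h5 a b hab)
      (fun a => (h2 a).measurableSet)]
    exact Finset.sum_congr rfl fun a _ => h3 a (Finset.mem_univ a)
  have hR0 : vol R = 0 := by
    rw [vol, hR, measureReal_sdiff (iUnion_subset h1) hU.measurableSet]
    have : volume.real (⋃ a, P a) = ∑ a, w a := hUv
    rw [this, hs]
    simp [vol]
  let ν : unitInterval → ι := fun x => if h : ∃ a, x ∈ P a then h.choose else a0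
  have hν : ∀ a x, x ∈ P a → ν x = a := by
    intro a x hx
    have hex : ∃ a, x ∈ P a := ⟨a, hx⟩
    have h : ν x = hex.choose := by simp only [ν, dif_pos hex]
    rw [h]
    by_contra hne
    exact (Set.disjoint_left.1 (h5 _ _ hne)) hex.choose_spec hx
  have hν0 : ∀ x, x ∈ R → ν x = a0 := by
    intro x hx
    have hnex : ¬ ∃ a, x ∈ P a := fun ⟨a, ha⟩ => hx.2 (mem_iUnion.2 ⟨a, ha⟩)
    simp only [ν, dif_neg hnex]
  have hfib : ∀ a, ν ⁻¹' {a} ∩ Z = if a = a0 then P a ∪ R else P a := by
    intro a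
    ext x
    simp only [mem_inter_iff, mem_preimage, mem_singleton_iff]
    constructor
    · rintro ⟨hx, hxZ⟩
      by_cases hex : ∃ b, x ∈ P b
      · obtain ⟨b, hb⟩ := hex
        have := hν b x hb
        rw [hx] at this
        subst this
        split_ifs
        · exact Or.inl hb
        · exact hb
      · have hxR : x ∈ R := ⟨hxZ, fun h => hex (mem_iUnion.1 h)⟩
        have := hν0 x hxR
        rw [hx] at this
        rw [if_pos this]
        exact Or.inr hxR
    · intro hx
      split_ifs at hx with h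
      · rcases hx with hx | hx
        · exact ⟨hν a x hx, h1 a hx⟩
        · exact ⟨by rw [hν0 x hx, h], hx.1⟩
      · exact ⟨hν a x hx, h1 a hx⟩
  refine ⟨ν, fun a => ?_, fun a => ?_⟩
  · rw [hfib]
    split_ifs
    · exact isPiece_union (h2 a) hRp
    · exact h2 a
  · rw [hfib]
    split_ifs
    · apply le_antisymm
      · calc vol (P a ∪ R) ≤ vol (P a) + vol R := measureReal_union_le _ _
          _ = w a := by rw [hR0, h3 a (Finset.mem_univ a), add_zero]
      · rw [← h3 a (Finset.mem_univ a)]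
        exact measureReal_mono subset_union_left
    · exact h3 a (Finset.mem_univ a)

/-- The same with some labels inside the piece `X`. -/
lemma exists_lab_in {ι : Type} [Fintype ι] [DecidableEq ι] [Nonempty ι] {Z X : Set unitInterval}
    (hZ : IsPiece Z) (hX : IsPiece X) (w : ι → ℝ) (hw : ∀ a, 0 ≤ w a) (hs : ∑ a, w a = vol Z)
    (G : ι → Prop) [DecidablePred G]
    (hG : (∑ a, if G a then w a else 0) ≤ vol (Z ∩ X)) :
    ∃ ν : unitInterval → ι, (∀ a, IsPiece (ν ⁻¹' {a} ∩ Z)) ∧ (∀ a, vol (ν ⁻¹' {a} ∩ Z) = w a) ∧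
      ∀ a, G a → vol (ν ⁻¹' {a} ∩ Z ∩ X) = w a := by
  classical
  have hnn : 0 ≤ ∑ a, if G a then w a else 0 :=
    Finset.sum_nonneg fun a _ => by split_ifs; exacts [hw a, le_refl _]
  obtain ⟨Z1, hZ1s, hZ1, hZ1v⟩ := exists_subpiece (isPiece_inter hZ hX) hnn hG
  have hZ1Z : Z1 ⊆ Z := hZ1s.trans inter_subset_left
  have hZ1X : Z1 ⊆ X := hZ1s.trans inter_subset_right
  have hZ2 : IsPiece (Z \ Z1) := isPiece_diff hZ hZ1
  have hsplit : ∑ a, w a = (∑ a, if G a then w a else 0) + ∑ a, if G a then 0 else w a := by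
    rw [← Finset.sum_add_distrib]
    exact Finset.sum_congr rfl fun a _ => by split_ifs <;> simp
  have hZ2v : vol (Z \ Z1) = ∑ a, if G a then 0 else w a := by
    rw [vol, measureReal_sdiff hZ1Z hZ1.measurableSet]
    have e1 : volume.real Z1 = ∑ a, if G a then w a else 0 := hZ1v
    have e2 : volume.real Z = ∑ a, w a := hs.symm
    rw [e1, e2, hsplit]
    ring
  obtain ⟨ν1, h1p, h1v⟩ := exists_lab (ι := ι) hZ1 (fun a => if G a then w a else 0)
    (fun a => by split_ifs; exacts [hw a, le_refl _]) hZ1v.symm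
  obtain ⟨ν2, h2p, h2v⟩ := exists_lab (ι := ι) hZ2 (fun a => if G a then 0 else w a)
    (fun a => by split_ifs; exacts [le_refl _, hw a]) hZ2v.symm
  let ν : unitInterval → ι := fun x => if x ∈ Z1 then ν1 x else ν2 x
  have hfib : ∀ a, ν ⁻¹' {a} ∩ Z = (ν1 ⁻¹' {a} ∩ Z1) ∪ (ν2 ⁻¹' {a} ∩ (Z \ Z1)) := by
    intro a
    ext x
    simp only [ν, mem_inter_iff, mem_preimage, mem_singleton_iff, mem_union, mem_sdiff]
    by_cases hx : x ∈ Z1
    · simp only [hx, if_true, not_true_eq_false, and_false, or_false, and_true]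
      exact ⟨fun h => h.1, fun h => ⟨h, hZ1Z hx⟩⟩
    · simp only [hx, if_false, and_false, false_or, not_false_eq_true, and_true]
  have hdisj : ∀ a, Disjoint (ν1 ⁻¹' {a} ∩ Z1) (ν2 ⁻¹' {a} ∩ (Z \ Z1)) := fun a =>
    disjoint_of_subset inter_subset_right inter_subset_right disjoint_sdiff_right
  have hv : ∀ a, vol (ν ⁻¹' {a} ∩ Z) = w a := by
    intro a
    rw [hfib, vol, measureReal_union (hdisj a) (h2p a).measurableSet]
    have e1 : volume.real (ν1 ⁻¹' {a} ∩ Z1) = if G a then w a else 0 := h1v a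
    have e2 : volume.real (ν2 ⁻¹' {a} ∩ (Z \ Z1)) = if G a then 0 else w a := h2v a
    rw [e1, e2]
    split_ifs <;> simp
  refine ⟨ν, fun a => ?_, hv, fun a ha => ?_⟩
  · rw [hfib]; exact isPiece_union (h1p a) (h2p a)
  · apply le_antisymm
    · rw [← hv a]; exact measureReal_mono inter_subset_left
    · have e1 : volume.real (ν1 ⁻¹' {a} ∩ Z1) = w a := by
        have := h1v a
        rw [if_pos ha] at this
        exact this
      rw [← e1]
      refine measureReal_mono ?_
      intro x hx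
      refine ⟨?_, hZ1X hx.2⟩
      rw [hfib]
      exact Or.inl hx

/-- Refinement of a labelling by a second one with prescribed table of measures. -/
lemma refine_lab {ι κ : Type} [Fintype ι] [DecidableEq ι] [Nonempty ι] [Fintype κ]
    [DecidableEq κ] {μ : unitInterval → κ} (hμ : IsLab μ) {X : Set unitInterval}
    (hX : IsPiece X) (w : ι → κ → ℝ) (hw : ∀ a c, 0 ≤ w a c)
    (hs : ∀ c, ∑ a, w a c = vol (μ ⁻¹' {c})) (G : ι → κ → Prop) [∀ a c, Decidable (G a c)]
    (hG : ∀ c, (∑ a, if G a c then w a c else 0) ≤ vol (μ ⁻¹' {c} ∩ X)) :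
    ∃ ν : unitInterval → ι, IsLab ν ∧ (∀ a c, vol (ν ⁻¹' {a} ∩ μ ⁻¹' {c}) = w a c) ∧
      ∀ a c, G a c → vol (ν ⁻¹' {a} ∩ μ ⁻¹' {c} ∩ X) = w a c := by
  have H : ∀ c, ∃ ν : unitInterval → ι, (∀ a, IsPiece (ν ⁻¹' {a} ∩ μ ⁻¹' {c})) ∧
      (∀ a, vol (ν ⁻¹' {a} ∩ μ ⁻¹' {c}) = w a c) ∧
      ∀ a, G a c → vol (ν ⁻¹' {a} ∩ μ ⁻¹' {c} ∩ X) = w a c := fun c =>
    exists_lab_in (hμ c) hX (fun a => w a c) (fun a => hw a c) (hs c) (fun a => G a c) (hG c)
  choose N hp hv hg using H
  have hfib : ∀ a c, (fun x => N (μ x) x) ⁻¹' {a} ∩ μ ⁻¹' {c} = N c ⁻¹' {a} ∩ μ ⁻¹' {c} := by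
    intro a c
    ext x
    simp only [mem_inter_iff, mem_preimage, mem_singleton_iff]
    constructor
    · rintro ⟨h1, h2⟩
      rw [h2] at h1
      exact ⟨h1, h2⟩
    · rintro ⟨h1, h2⟩
      exact ⟨by rw [h2]; exact h1, h2⟩
  refine ⟨fun x => N (μ x) x, fun a => ?_, fun a c => ?_, fun a c h => ?_⟩
  · have e : (fun x => N (μ x) x) ⁻¹' {a} = ⋃ c, (N c ⁻¹' {a} ∩ μ ⁻¹' {c}) := by
      ext x
      simp only [mem_preimage, mem_singleton_iff, mem_iUnion, mem_inter_iff]
      constructor
      · intro h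
        exact ⟨μ x, h, rfl⟩
      · rintro ⟨c, h1, h2⟩
        rw [h2]; exact h1
    rw [e]
    exact isPiece_iUnion fun c => hp c a
  · rw [hfib]; exact hv c a
  · rw [hfib]; exact hg c a h

end Pool.Agent.Helper95.CK
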