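import Mathlib
import Pool.Agent.Helper95.CK.Lab

set_option autoImplicit false

open MeasureTheory Set

namespace Pool.Agent.Helper95.CK

open Pool.Agent.Helper83.Cake

/-- the sizes of the shells -/
noncomputable def sz (β : ℝ) (i : ℕ) : ℝ := (β / 4) ^ (i + 1)

lemma sz_pos {β : ℝ} (h : 0 < β) (i : ℕ) : 0 < sz β i := by
  unfold sz; positivity

lemma sz_lt_le {β : ℝ} (h : 0 < β) (h1 : β ≤ 1 / 2) {i j : ℕ} (hij : i < j) :
    sz β j ≤ β / 4 * sz β i := by
  unfold sz
  have e : j + 1 = (j - i - 1) + 1 + (i + 1) := by omega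
  rw [e, pow_add, pow_succ]
  have h2 : (β / 4) ^ (j - i - 1) ≤ 1 := pow_le_one₀ (by linarith) (by linarith)
  have h3 : 0 < (β / 4) ^ (i + 1) := by positivity
  have h4 : (β / 4) ^ (j - i - 1) * (β / 4) ≤ β / 4 := by nlinarith
  nlinarith

lemma sz_anti {β : ℝ} (h : 0 < β) (h1 : β ≤ 1 / 2) {i j : ℕ} (hij : i ≤ j) :
    sz β j ≤ sz β i := by
  rcases eq_or_lt_of_le hij with rfl | h2
  · exact le_rfl
  · have := sz_lt_le h h1 h2
    have := sz_pos h i
    nlinarith

lemma sum_Ico_sz {β : ℝ} (h : 0 < β) (h1 : β ≤ 1 / 2) (k m : ℕ) :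
    (∑ i ∈ Finset.Ico k (k + m), sz β i) + 2 * sz β (k + m) ≤ 2 * sz β k := by
  induction m with
  | zero => simp
  | succ m ih =>
    rw [← add_assoc, Finset.sum_Ico_succ_top (by omega)]
    have := sz_lt_le h h1 (show k + m < k + m + 1 by omega)
    have := sz_pos h (k + m)
    nlinarith

/-- the sum over all labels from `k` on -/
lemma tail_le {β : ℝ} (h : 0 < β) (h1 : β ≤ 1 / 2) {N : ℕ} (k : ℕ) :
    (∑ a : Fin N, if k ≤ (a : ℕ) then sz β a else 0) ≤ 2 * sz β k := by
  rw [Fin.sum_univ_eq_sum_range (fun i => if k ≤ i then sz β i else 0) N, ← Finset.sum_filter]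
  have hk := sz_pos h k
  rcases le_total k N with hN | hN
  · have e : Finset.filter (fun i => k ≤ i) (Finset.range N) = Finset.Ico k (k + (N - k)) := by
      ext i; simp only [Finset.mem_filter, Finset.mem_range, Finset.mem_Ico]; omega
    rw [e]
    have := sum_Ico_sz h h1 k (N - k)
    have := sz_pos h (k + (N - k))
    linarith
  · have e : Finset.filter (fun i => k ≤ i) (Finset.range N) = ∅ := by
      ext i; simp only [Finset.mem_filter, Finset.mem_range, Finset.notMem_empty, iff_false]; omega
    rw [e]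
    simp
    linarith

/-- overlaps of the shells of the two agents -/
noncomputable def ov (β : ℝ) {N : ℕ} (j j' k l : Fin N) (a b : Fin N) : ℝ :=
  (if a = k then if b = l then β * sz β l else 0 else 0) +
  (if a = k then if b = j then sz β k - β * sz β l else 0 else 0) +
  (if k < a ∧ a < l then if b = j then sz β a else 0 else 0) +
  (if a = j' then if b = l then (1 - β) * sz β l else 0 else 0) +
  (if a = j' then if l < b then sz β b else 0 else 0)

section
variable {β : ℝ} (h : 0 < β) (h1 : β ≤ 1 / 2) {N : ℕ} {j j' k l : Fin N}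
  (e1 : j < j') (e2 : j' < k) (e3 : k < l)

include h h1 e3 in
lemma ov_nonneg (a b : Fin N) : 0 ≤ ov β j j' k l a b := by
  unfold ov
  have p1 := sz_pos h (l : ℕ)
  have p2 := sz_pos h (a : ℕ)
  have p3 := sz_pos h (b : ℕ)
  have p4 := sz_anti h h1 (show (k : ℕ) ≤ l from e3.le)
  have q1 : 0 ≤ β * sz β l := by positivity
  have q2 : 0 ≤ sz β k - β * sz β l := by nlinarith
  have q3 : 0 ≤ (1 - β) * sz β l := by nlinarith
  split_ifs <;> linarith

lemma ov_row (a : Fin N) : ∑ b, ov β j j' k l a b =
    (if a = k then sz β k else 0) + (if k < a ∧ a < l then sz β a else 0) +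
    (if a = j' then (1 - β) * sz β l + ∑ b : Fin N, (if l < b then sz β b else 0) else 0) := by
  unfold ov
  simp only [Finset.sum_add_distrib]
  split_ifs <;> simp <;> ring

lemma ov_col (b : Fin N) : ∑ a, ov β j j' k l a b =
    (if b = l then sz β l else 0) +
    (if b = j then sz β k - β * sz β l + ∑ a : Fin N, (if k < a ∧ a < l then sz β a else 0)
      else 0) + (if l < b then sz β b else 0) := by
  unfold ov
  simp only [Finset.sum_add_distrib]
  split_ifs <;> simp <;> ring

include h h1 in
lemma tail_l (c : ℝ) (hc : c ≤ 1) :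
    c * sz β l + ∑ b : Fin N, (if l < b then sz β b else 0) ≤ 2 * sz β l := by
  have := tail_le h h1 (N := N) (l : ℕ)
  have e : (∑ a : Fin N, if (l : ℕ) ≤ (a : ℕ) then sz β a else 0) =
      sz β l + ∑ b : Fin N, (if l < b then sz β b else 0) := by
    rw [← Finset.sum_filter, ← Finset.sum_filter,
      show Finset.filter (fun a : Fin N => (l : ℕ) ≤ (a : ℕ)) Finset.univ =
        insert l (Finset.filter (fun a : Fin N => l < a) Finset.univ) by
        ext a
        simp only [Finset.mem_filter, Finset.mem_univ, true_and, Finset.mem_insert, Fin.lt_def,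
          Fin.ext_iff]
        omega]
    rw [Finset.sum_insert (by simp)]
  have := sz_pos h (l : ℕ)
  nlinarith

include h h1 in
lemma tail_k (c : ℝ) (hc : c ≤ sz β k) :
    c + ∑ a : Fin N, (if k < a ∧ a < l then sz β a else 0) ≤ 2 * sz β k := by
  have h2 : ∑ a : Fin N, (if k < a ∧ a < l then sz β a else 0) ≤
      ∑ b : Fin N, (if k < b then sz β b else 0) := by
    apply Finset.sum_le_sum
    intro a _
    have := sz_pos h (a : ℕ)
    split_ifs with c1 c2 c2
    · exact le_rfl
    · exact absurd c1.1 c2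
    · exact this.le
    · exact le_rfl
  have := tail_l h h1 (l := k) 1 le_rfl
  linarith

include h h1 e1 e2 e3 in
lemma ov_row_le (a : Fin N) : ∑ b, ov β j j' k l a b ≤ sz β a := by
  rw [ov_row]
  have p := sz_pos h (a : ℕ)
  have t := tail_l h h1 (l := l) (1 - β) (by linarith)
  have t2 := sz_lt_le h h1 (show (j' : ℕ) < l from e2.trans e3)
  have p' := sz_pos h (j' : ℕ)
  by_cases c1 : a = k
  · subst c1
    rw [if_pos rfl, if_neg (fun c => lt_irrefl _ c.1), if_neg e2.ne']
    simp
  · by_cases c2 : a = j'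
    · subst c2
      rw [if_neg c1, if_neg (fun c => lt_asymm c.1 e2), if_pos rfl]
      nlinarith
    · rw [if_neg c1, if_neg c2]
      split_ifs <;> linarith

include h h1 e1 e2 e3 in
lemma ov_col_le (b : Fin N) : ∑ a, ov β j j' k l a b ≤ sz β b := by
  rw [ov_col]
  have p := sz_pos h (b : ℕ)
  have pl := sz_pos h (l : ℕ)
  have t := tail_k h h1 (k := k) (l := l) (sz β k - β * sz β l) (by nlinarith)
  have t2 := sz_lt_le h h1 (show (j : ℕ) < k from e1.trans e2)
  have p' := sz_pos h (j : ℕ)
  by_cases c1 : b = l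
  · subst c1
    rw [if_pos rfl, if_neg ((e1.trans e2).trans e3).ne', if_neg (lt_irrefl _)]
    simp
  · by_cases c2 : b = j
    · subst c2
      rw [if_neg c1, if_pos rfl, if_neg (lt_asymm ((e1.trans e2).trans e3))]
      nlinarith
    · rw [if_neg c1, if_neg c2]
      split_ifs <;> linarith

end

/-- the table of the measures of all joint cells; `none` = outside of the shells -/
noncomputable def tab (β : ℝ) {N : ℕ} (j j' k l : Fin N) :
    Option (Fin N) → Option (Fin N) → ℝ
  | some a, some b => ov β j j' k l a b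
  | some a, none => sz β a - ∑ b, ov β j j' k l a b
  | none, some b => sz β b - ∑ a, ov β j j' k l a b
  | none, none => 1 - 2 * (∑ a : Fin N, sz β a) + ∑ a, ∑ b, ov β j j' k l a b

/-- the sizes of all cells of one labelling -/
noncomputable def wt (β : ℝ) (N : ℕ) : Option (Fin N) → ℝ
  | some a => sz β a
  | none => 1 - ∑ a : Fin N, sz β a

lemma sum_sz_le {β : ℝ} (h : 0 < β) (h1 : β ≤ 1 / 2) (N : ℕ) : ∑ a : Fin N, sz β a ≤ 1 / 4 := by
  have := tail_le h h1 (N := N) 0
  simp only [Nat.zero_le, if_true] at this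
  have e : sz β 0 = β / 4 := by simp [sz]
  rw [e] at this
  linarith

lemma wt_nonneg {β : ℝ} (h : 0 < β) (h1 : β ≤ 1 / 2) {N : ℕ} (a : Option (Fin N)) :
    0 ≤ wt β N a := by
  cases a with
  | none => have := sum_sz_le h h1 N; simp only [wt]; linarith
  | some a => exact (sz_pos h a).le

lemma tab_nonneg {β : ℝ} (h : 0 < β) (h1 : β ≤ 1 / 2) {N : ℕ} {j j' k l : Fin N} (e1 : j < j')
    (e2 : j' < k) (e3 : k < l) (a b : Option (Fin N)) : 0 ≤ tab β j j' k l a b := by
  cases a with
  | none =>
    cases b with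
    | none =>
      simp only [tab]
      have := sum_sz_le h h1 N
      have h2 : 0 ≤ ∑ a, ∑ b, ov β j j' k l a b :=
        Finset.sum_nonneg fun a _ => Finset.sum_nonneg fun b _ => ov_nonneg h h1 e3 a b
      linarith
    | some b =>
      simp only [tab]
      have := ov_col_le h h1 e1 e2 e3 b
      linarith
  | some a =>
    cases b with
    | none =>
      simp only [tab]
      have := ov_row_le h h1 e1 e2 e3 a
      linarith
    | some b => exact ov_nonneg h h1 e3 a b

lemma tab_row (β : ℝ) {N : ℕ} (j j' k l : Fin N) (a : Option (Fin N)) :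
    ∑ b, tab β j j' k l a b = wt β N a := by
  rw [Fintype.sum_option]
  cases a with
  | none =>
    simp only [tab, wt, Finset.sum_sub_distrib]
    rw [Finset.sum_comm]
    ring
  | some a =>
    simp only [tab, wt]
    ring

lemma tab_col (β : ℝ) {N : ℕ} (j j' k l : Fin N) (b : Option (Fin N)) :
    ∑ a, tab β j j' k l a b = wt β N b := by
  rw [Fintype.sum_option]
  cases b with
  | none =>
    simp only [tab, wt, Finset.sum_sub_distrib]
    ring
  | some b =>
    simp only [tab, wt]
    ring

end Pool.Agent.Helper95.CK
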