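import Mathlib
import Pool.Agent.Helper95.CK.Num
import Pool.Agent.Helper95.CK.Dens

set_option autoImplicit false

open MeasureTheory Set

namespace Pool.Agent.Helper95.CK

open Pool.Agent.Helper83.Cake

section
variable {β : ℝ} {N : ℕ} {j j' k l : Fin N} (e1 : j < j') (e2 : j' < k) (e3 : k < l)

include e1 e2 e3

lemma ov_kl : ov β j j' k l k l = β * sz β l := by
  simp [ov, ((e1.trans e2).trans e3).ne', e2.ne']

lemma ov_kj : ov β j j' k l k j = sz β k - β * sz β l := by
  simp [ov, ((e1.trans e2).trans e3).ne, e2.ne']

lemma ov_aj {a : Fin N} (ha : k < a) (hal : a < l) : ov β j j' k l a j = sz β a := by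
  simp [ov, ha, hal, ha.ne', (e2.trans ha).ne']

lemma ov_al {a : Fin N} (ha : k < a) : ov β j j' k l a l = 0 := by
  simp [ov, ((e1.trans e2).trans e3).ne', ha.ne', (e2.trans ha).ne']

lemma ov_kb {b : Fin N} (hb : l < b) : ov β j j' k l k b = 0 := by
  simp [ov, hb.ne', (((e1.trans e2).trans e3).trans hb).ne', e2.ne']

lemma ov_jl : ov β j j' k l j' l = (1 - β) * sz β l := by
  simp [ov, e2.ne, e2.not_gt]

lemma ov_jb {b : Fin N} (hb : l < b) : ov β j j' k l j' b = sz β b := by
  simp [ov, hb, hb.ne', e2.ne, e2.not_gt]

end

lemma vol_add_le {A X : Set unitInterval} {μ : Type} (f : unitInterval → μ) {i j : μ}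
    (hij : i ≠ j) (hA : MeasurableSet (A ∩ f ⁻¹' {j} ∩ X)) :
    vol (A ∩ f ⁻¹' {i} ∩ X) + vol (A ∩ f ⁻¹' {j} ∩ X) ≤ vol (A ∩ X) := by
  rw [← measureReal_union _ hA]
  · apply measureReal_mono _ (measure_ne_top _ _)
    rintro x (⟨⟨h1, -⟩, h2⟩ | ⟨⟨h1, -⟩, h2⟩) <;> exact ⟨h1, h2⟩
  · rw [Set.disjoint_left]
    rintro x ⟨⟨-, h1⟩, -⟩ ⟨⟨-, h2⟩, -⟩
    exact hij (h1.symm.trans h2)

/-- Two realizations of the same table of joint cells: one in which the upper shells of the first
agent lie in `X`, and one in which the upper shells of the second agent lie in `Y`. -/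
theorem two_realizations {β : ℝ} (h : 0 < β) (h1 : β ≤ 1 / 2) {N : ℕ} {j j' k l : Fin N}
    (e1 : j < j') (e2 : j' < k) (e3 : k < l) {μ : unitInterval → Option (Fin N)} (hμ : IsLab μ)
    (hm : ∀ c, vol (μ ⁻¹' {c}) = wt β N c) {X Y : Set unitInterval} (hX : IsPiece X)
    (hY : IsPiece Y) (xj : β * sz β j ≤ vol (μ ⁻¹' {some j} ∩ X))
    (xl : β * sz β l ≤ vol (μ ⁻¹' {some l} ∩ X)) (yj : β * sz β j' ≤ vol (μ ⁻¹' {some j'} ∩ Y))
    (yk : β * sz β k ≤ vol (μ ⁻¹' {some k} ∩ Y)) :
    ∃ ν ν' : unitInterval → Option (Fin N), IsLab ν ∧ IsLab ν' ∧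
      (∀ a b, vol (ν ⁻¹' {a} ∩ μ ⁻¹' {b}) = vol (μ ⁻¹' {a} ∩ ν' ⁻¹' {b})) ∧
      (∀ a, vol (ν ⁻¹' {some a}) = sz β a) ∧
      (∀ a : Fin N, k ≤ a → a < l → sz β a ≤ vol (ν ⁻¹' {some a} ∩ X)) ∧
      (∀ b : Fin N, l ≤ b → sz β b ≤ vol (ν' ⁻¹' {some b} ∩ Y)) ∧
      vol (ν ⁻¹' {some k} ∩ μ ⁻¹' {some l}) = β * sz β l := by
  classical
  have pl := sz_pos h (l : ℕ)
  have pj := sz_pos h (j : ℕ)
  have pj' := sz_pos h (j' : ℕ)
  have pk := sz_pos h (k : ℕ)
  have jk : j < k := e1.trans e2
  have jl : j < l := jk.trans e3
  have j'l : j' < l := e2.trans e3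
  obtain ⟨ν, n1, n2, n3⟩ := refine_lab hμ hX (tab β j j' k l) (tab_nonneg h h1 e1 e2 e3)
    (fun c => by rw [tab_col, hm])
    (fun a c => (∃ a' : Fin N, a = some a' ∧ k ≤ a' ∧ a' < l) ∧ (c = some j ∨ c = some l))
    (by
      intro c
      by_cases c1 : c = some j
      · subst c1
        refine le_trans ?_ xj
        have t := tail_k h h1 (k := k) (l := l) (sz β k - β * sz β l) (by nlinarith)
        have t2 := sz_lt_le h h1 (show (j : ℕ) < k from jk)
        have : (∑ a, if (∃ a' : Fin N, a = some a' ∧ k ≤ a' ∧ a' < l) ∧
            ((some j : Option (Fin N)) = some j ∨ (some j : Option (Fin N)) = some l) then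
            tab β j j' k l a (some j) else 0) ≤
            (sz β k - β * sz β l) + ∑ a : Fin N, (if k < a ∧ a < l then sz β a else 0) := by
          rw [Fintype.sum_option]
          have q1 : (if (∃ a' : Fin N, (none : Option (Fin N)) = some a' ∧ k ≤ a' ∧ a' < l) ∧
            ((some j : Option (Fin N)) = some j ∨ (some j : Option (Fin N)) = some l) then
            tab β j j' k l none (some j) else 0) = 0 := by
            rw [if_neg]
            rintro ⟨⟨a', q, -⟩, -⟩
            exact absurd q (by simp)
          rw [q1, zero_add]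
          have q2 : (sz β k - β * sz β l) = ∑ a : Fin N,
              (if a = k then (sz β k - β * sz β l) else 0) := by simp
          rw [q2, ← Finset.sum_add_distrib]
          apply Finset.sum_le_sum
          intro a _
          have pa := sz_pos h (a : ℕ)
          have pkl : 0 ≤ sz β k - β * sz β l := by
            have := sz_anti h h1 (show (k : ℕ) ≤ l from e3.le)
            nlinarith
          split_ifs with d1 d2 d3 d3 d2 d3 d3
          · exact absurd d3.1 (by rw [d2]; exact lt_irrefl _)
          · simp only [tab]
            rw [d2, ov_kj e1 e2 e3]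
            linarith
          · simp only [tab]
            rw [ov_aj e1 e2 e3 d3.1 d3.2]
            linarith
          · obtain ⟨⟨a', q, q1, q2⟩, -⟩ := d1
            obtain rfl : a = a' := by simpa using q
            exact absurd ⟨lt_of_le_of_ne q1 (Ne.symm d2), q2⟩ d3
          · linarith
          · linarith
          · linarith
          · linarith
        refine this.trans ?_
        nlinarith
      · by_cases c2 : c = some l
        · subst c2
          refine le_trans ?_ xl
          have : (∑ a, if (∃ a' : Fin N, a = some a' ∧ k ≤ a' ∧ a' < l) ∧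
            ((some l : Option (Fin N)) = some j ∨ (some l : Option (Fin N)) = some l) then
            tab β j j' k l a (some l) else 0) ≤ β * sz β l := by
            rw [Fintype.sum_option]
            have q1 : (if (∃ a' : Fin N, (none : Option (Fin N)) = some a' ∧ k ≤ a' ∧ a' < l) ∧
              ((some l : Option (Fin N)) = some j ∨ (some l : Option (Fin N)) = some l) then
              tab β j j' k l none (some l) else 0) = 0 := by
              rw [if_neg]
              rintro ⟨⟨a', q, -⟩, -⟩
              exact absurd q (by simp)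
            rw [q1, zero_add]
            have q2 : β * sz β l = ∑ a : Fin N, (if a = k then β * sz β l else 0) := by simp
            rw [q2]
            apply Finset.sum_le_sum
            intro a _
            split_ifs with d1 d2 d2
            · simp only [tab]
              rw [d2, ov_kl e1 e2 e3]
            · obtain ⟨⟨a', q, q1, q2⟩, -⟩ := d1
              obtain rfl : a = a' := by simpa using q
              simp only [tab]
              rw [ov_al e1 e2 e3 (lt_of_le_of_ne q1 (Ne.symm d2))]
            · positivity
            · exact le_rfl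
          exact this
        · refine le_trans (le_of_eq ?_) measureReal_nonneg
          apply Finset.sum_eq_zero
          intro a _
          rw [if_neg]
          rintro ⟨-, q | q⟩
          · exact c1 q
          · exact c2 q)
  obtain ⟨ν', m1, m2, m3⟩ := refine_lab hμ hY (fun b a => tab β j j' k l a b)
    (fun b a => tab_nonneg h h1 e1 e2 e3 a b)
    (fun c => by rw [tab_row, hm])
    (fun b c => (∃ b' : Fin N, b = some b' ∧ l ≤ b') ∧ (c = some k ∨ c = some j'))
    (by
      intro c
      by_cases c1 : c = some k
      · subst c1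
        refine le_trans ?_ yk
        rw [Fintype.sum_option]
        have q1 : (if (∃ b' : Fin N, (none : Option (Fin N)) = some b' ∧ l ≤ b') ∧
          ((some k : Option (Fin N)) = some k ∨ (some k : Option (Fin N)) = some j') then
          tab β j j' k l (some k) none else 0) = 0 := by
          rw [if_neg]
          rintro ⟨⟨a', q, -⟩, -⟩
          exact absurd q (by simp)
        rw [q1, zero_add]
        have q2 : β * sz β l = ∑ b : Fin N, (if b = l then β * sz β l else 0) := by simp
        have q3 : β * sz β l ≤ β * sz β k :=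
          mul_le_mul_of_nonneg_left (sz_anti h h1 (show (k : ℕ) ≤ l from e3.le)) h.le
        refine le_trans ?_ q3
        rw [q2]
        apply Finset.sum_le_sum
        intro b _
        split_ifs with d1 d2 d2
        · simp only [tab]
          rw [d2, ov_kl e1 e2 e3]
        · obtain ⟨⟨a', q, q1⟩, -⟩ := d1
          obtain rfl : b = a' := by simpa using q
          simp only [tab]
          rw [ov_kb e1 e2 e3 (lt_of_le_of_ne q1 (Ne.symm d2))]
        · positivity
        · exact le_rfl
      · by_cases c2 : c = some j'
        · subst c2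
          refine le_trans ?_ yj
          have t := tail_l h h1 (l := l) (1 - β) (by linarith)
          have t2 := sz_lt_le h h1 (show (j' : ℕ) < l from j'l)
          have : (∑ b, if (∃ b' : Fin N, b = some b' ∧ l ≤ b') ∧
            ((some j' : Option (Fin N)) = some k ∨ (some j' : Option (Fin N)) = some j') then
            tab β j j' k l (some j') b else 0) ≤
            (1 - β) * sz β l + ∑ b : Fin N, (if l < b then sz β b else 0) := by
            rw [Fintype.sum_option]
            have q1 : (if (∃ b' : Fin N, (none : Option (Fin N)) = some b' ∧ l ≤ b') ∧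
              ((some j' : Option (Fin N)) = some k ∨ (some j' : Option (Fin N)) = some j') then
              tab β j j' k l (some j') none else 0) = 0 := by
              rw [if_neg]
              rintro ⟨⟨a', q, -⟩, -⟩
              exact absurd q (by simp)
            rw [q1, zero_add]
            have q2 : (1 - β) * sz β l = ∑ b : Fin N, (if b = l then (1 - β) * sz β l else 0) := by
              simp
            rw [q2, ← Finset.sum_add_distrib]
            apply Finset.sum_le_sum
            intro b _
            have pb := sz_pos h (b : ℕ)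
            have pl' : 0 ≤ (1 - β) * sz β l := by nlinarith
            split_ifs with d1 d2 d3 d3 d2 d3 d3
            · exact absurd d3 (by rw [d2]; exact lt_irrefl _)
            · simp only [tab]
              rw [d2, ov_jl e1 e2 e3]
              linarith
            · simp only [tab]
              rw [ov_jb e1 e2 e3 d3]
              linarith
            · obtain ⟨⟨a', q, q1⟩, -⟩ := d1
              obtain rfl : b = a' := by simpa using q
              exact absurd (lt_of_le_of_ne q1 (Ne.symm d2)) d3
            · linarith
            · linarith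
            · linarith
            · linarith
          refine this.trans ?_
          nlinarith
        · refine le_trans (le_of_eq ?_) measureReal_nonneg
          apply Finset.sum_eq_zero
          intro a _
          rw [if_neg]
          rintro ⟨-, q | q⟩
          · exact c1 q
          · exact c2 q)
  refine ⟨ν, ν', n1, m1, ?_, ?_, ?_, ?_, ?_⟩
  · intro a b
    rw [n2 a b, inter_comm, m2 b a]
  · intro a
    have := setIntegral_lab hμ (fun _ => (1 : ℝ)) (n1 (some a)).measurableSet
    simp only [integral_const, one_mul, smul_eq_mul, mul_one] at this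
    rw [measureReal_restrict_apply MeasurableSet.univ, univ_inter] at this
    refine this.trans ?_
    have e : ∀ c, vol (μ ⁻¹' {c} ∩ ν ⁻¹' {some a}) = tab β j j' k l (some a) c := by
      intro c
      rw [inter_comm, n2]
    simp only [e]
    rw [tab_row]
    rfl
  · intro a ka al
    have s1 := n3 (some a) (some j) ⟨⟨a, rfl, ka, al⟩, Or.inl rfl⟩
    have s2 := n3 (some a) (some l) ⟨⟨a, rfl, ka, al⟩, Or.inr rfl⟩
    have s3 := vol_add_le (A := ν ⁻¹' {some a}) (X := X) μ
      (show (some j : Option (Fin N)) ≠ some l by simpa using jl.ne)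
      (((n1 _).measurableSet.inter (hμ _).measurableSet).inter hX.measurableSet)
    rw [s1, s2] at s3
    refine le_trans (le_of_eq ?_) s3
    simp only [tab]
    rcases eq_or_lt_of_le ka with rfl | c
    · rw [ov_kj e1 e2 e3, ov_kl e1 e2 e3]
      ring
    · rw [ov_aj e1 e2 e3 c al, ov_al e1 e2 e3 c]
      ring
  · intro b lb
    have s1 := m3 (some b) (some k) ⟨⟨b, rfl, lb⟩, Or.inl rfl⟩
    have s2 := m3 (some b) (some j') ⟨⟨b, rfl, lb⟩, Or.inr rfl⟩
    have s3 := vol_add_le (A := ν' ⁻¹' {some b}) (X := Y) μ
      (show (some k : Option (Fin N)) ≠ some j' by simpa using e2.ne')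
      (((m1 _).measurableSet.inter (hμ _).measurableSet).inter hY.measurableSet)
    rw [s1, s2] at s3
    refine le_trans (le_of_eq ?_) s3
    simp only [tab]
    rcases eq_or_lt_of_le lb with rfl | c
    · rw [ov_kl e1 e2 e3, ov_jl e1 e2 e3]
      ring
    · rw [ov_kb e1 e2 e3 c, ov_jb e1 e2 e3 c]
      ring
  · rw [n2]
    exact ov_kl e1 e2 e3

end Pool.Agent.Helper95.CK
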