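import Mathlib
import Pool.Agent.Helper95.CK.Two

set_option autoImplicit false

open MeasureTheory Set

namespace Pool.Agent.Helper95.CK

open Pool.Agent.Helper83.Cake

/-! ### the profiles -/

/-- the constant density -/
noncomputable def oneD : Density := ⟨fun _ => 1, isDensity_one⟩

/-- agents `p` and `q` report `f` and `g`, all others the constant density -/
noncomputable def prof {n : ℕ} (p q : Fin n) (f g : Density) : Fin n → Density := fun i =>
  if i = p then f else if i = q then g else oneD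

lemma prof_p {n : ℕ} (p q : Fin n) (f g : Density) : prof p q f g p = f := by simp [prof]

lemma prof_q {n : ℕ} {p q : Fin n} (h : p ≠ q) (f g : Density) : prof p q f g q = g := by
  simp [prof, h.symm]

lemma update_p {n : ℕ} (p q : Fin n) (f f' g : Density) :
    Function.update (prof p q f g) p f' = prof p q f' g := by
  funext i
  by_cases h : i = p
  · subst h; simp [prof]
  · simp [Function.update, prof, h]

lemma update_q {n : ℕ} {p q : Fin n} (h : p ≠ q) (f g g' : Density) :
    Function.update (prof p q f g) q g' = prof p q f g' := by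
  funext i
  by_cases h1 : i = q
  · subst h1; simp [prof, h.symm]
  · simp [Function.update, prof, h1]

/-! ### densities with values on shells -/

/-- values on the labels; `0` outside of the shells -/
def onShells {N : ℕ} (v : Fin N → ℝ) : Option (Fin N) → ℝ
  | some a => v a
  | none => 0

lemma onShells_nonneg {N : ℕ} {v : Fin N → ℝ} (hv : ∀ a, 0 ≤ v a) (c : Option (Fin N)) :
    0 ≤ onShells v c := by
  cases c with
  | none => exact le_rfl
  | some a => exact hv a

/-- the density with the value `v a` on the shell `a` of the labelling `μ` -/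
noncomputable def den {N : ℕ} {μ : unitInterval → Option (Fin N)} (hμ : IsLab μ) {v : Fin N → ℝ}
    (hv : ∀ a, 0 ≤ v a) (hp : ∃ a, 0 < v a ∧ 0 < vol (μ ⁻¹' {some a})) : Density :=
  ⟨fun x => onShells v (μ x), isDensity_lab hμ (onShells_nonneg hv)
    (by obtain ⟨a, h1, h2⟩ := hp; exact ⟨some a, h1, h2⟩)⟩

lemma value_den {N : ℕ} {μ : unitInterval → Option (Fin N)} (hμ : IsLab μ) {v : Fin N → ℝ}
    (hv : ∀ a, 0 ≤ v a) (hp : ∃ a, 0 < v a ∧ 0 < vol (μ ⁻¹' {some a})) {Z : Set unitInterval}
    (hZ : MeasurableSet Z) :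
    value (den hμ hv hp) Z = ∑ a, v a * vol (μ ⁻¹' {some a} ∩ Z) := by
  have := setIntegral_lab hμ (onShells v) hZ
  rw [Fintype.sum_option] at this
  simp only [onShells, zero_mul, zero_add] at this
  exact this

/-! ### the upper shells are almost completely in a piece of high value -/

lemma lex_aux {N : ℕ} {s x : Fin N → ℝ} {L : ℝ} (hL : 1 < L) (hs : ∀ a, 0 < s a)
    (hx : ∀ a, x a ≤ s a) {m : Fin N → ℝ} (hm0 : ∀ a, 0 ≤ m a) (hm1 : ∀ a, m a ≤ 1)
    {k : Fin N} (hk : m k = 1)
    (h : ∑ a, (if k ≤ a then m a * L ^ (a : ℕ) else 0) ≤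
      ∑ a, m a * (L ^ (a : ℕ) / s a) * x a) : s k - x k ≤ s k / (L - 1) := by
  have hL1 : 0 < L - 1 := by linarith
  have hpos : ∀ i : ℕ, 0 < L ^ i := fun i => pow_pos (by linarith) i
  have g : ∀ k : ℕ, (L - 1) * ∑ i ∈ Finset.range k, L ^ i = L ^ k - 1 := by
    intro k
    induction k with
    | zero => simp
    | succ k ih => rw [Finset.sum_range_succ, mul_add, ih]; ring
  have h2 : ∑ a : Fin N, (if (a : ℕ) < (k : ℕ) then L ^ (a : ℕ) else 0) ≤
      L ^ (k : ℕ) / (L - 1) := by
    rw [Fin.sum_univ_eq_sum_range (fun i => if i < (k : ℕ) then L ^ i else 0) N,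
      ← Finset.sum_filter]
    have e : Finset.filter (fun i => i < (k : ℕ)) (Finset.range N) = Finset.range k := by
      ext i
      simp only [Finset.mem_filter, Finset.mem_range]
      have := k.2
      omega
    rw [e, le_div_iff₀ hL1]
    have := g k
    linarith [hpos (k : ℕ)]
  have h3 : ∀ a : Fin N, m a * (L ^ (a : ℕ) / s a) * x a ≤
      (if k ≤ a then m a * L ^ (a : ℕ) else 0) +
        (if (a : ℕ) < (k : ℕ) then L ^ (a : ℕ) else 0) +
        (if a = k then L ^ (k : ℕ) / s k * x k - L ^ (k : ℕ) else 0) := by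
    intro a
    have t1 : m a * (L ^ (a : ℕ) / s a) * x a ≤ m a * L ^ (a : ℕ) := by
      have : (L ^ (a : ℕ) / s a) * x a ≤ L ^ (a : ℕ) := by
        rw [div_mul_eq_mul_div, div_le_iff₀ (hs a)]
        exact mul_le_mul_of_nonneg_left (hx a) (hpos _).le
      calc m a * (L ^ (a : ℕ) / s a) * x a = m a * ((L ^ (a : ℕ) / s a) * x a) := by ring
        _ ≤ m a * L ^ (a : ℕ) := mul_le_mul_of_nonneg_left this (hm0 a)
    have t2 : m a * L ^ (a : ℕ) ≤ L ^ (a : ℕ) := by
      have := mul_le_mul_of_nonneg_right (hm1 a) (hpos (a : ℕ)).le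
      linarith
    by_cases c : a = k
    · subst c
      rw [if_pos le_rfl, if_neg (lt_irrefl _), if_pos rfl, hk]
      linarith
    · rw [if_neg c]
      by_cases c2 : k ≤ a
      · rw [if_pos c2, if_neg (show ¬ (a : ℕ) < (k : ℕ) from not_lt.2 (Fin.le_def.1 c2))]
        linarith
      · rw [if_neg c2, if_pos (show (a : ℕ) < (k : ℕ) from Fin.lt_def.1 (not_le.1 c2))]
        linarith
  have h4 := Finset.sum_le_sum (fun a (_ : a ∈ Finset.univ) => h3 a)
  rw [Finset.sum_add_distrib, Finset.sum_add_distrib, Finset.sum_ite_eq' Finset.univ k] at h4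
  simp only [Finset.mem_univ, if_true] at h4
  have h5 : L ^ (k : ℕ) ≤ L ^ (k : ℕ) / (L - 1) + L ^ (k : ℕ) / s k * x k := by linarith
  have hp := hpos (k : ℕ)
  have hsk := hs k
  have h6 : 1 ≤ 1 / (L - 1) + x k / s k := by
    have : L ^ (k : ℕ) * 1 ≤ L ^ (k : ℕ) * (1 / (L - 1) + x k / s k) := by
      calc L ^ (k : ℕ) * 1 = L ^ (k : ℕ) := mul_one _
        _ ≤ _ := h5
        _ = _ := by ring
    exact le_of_mul_le_mul_left this hp
  have h7 : s k * 1 ≤ s k * (1 / (L - 1) + x k / s k) := mul_le_mul_of_nonneg_left h6 hsk.le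
  have h8 : s k * (1 / (L - 1) + x k / s k) = s k / (L - 1) + x k := by
    field_simp
  linarith

/-! ### many gettable shells -/

/-- if the sum of numbers in `[0,1]` is large, many of them are not small -/
lemma many {N : ℕ} {x : Fin N → ℝ} (A : Finset (Fin N)) {β : ℝ}
    (hx1 : ∀ a, x a ≤ 1) (hβ : 0 ≤ β)
    (h : 2 * β * (A.card : ℝ) ≤ ∑ a ∈ A, x a) :
    β * (A.card : ℝ) ≤ ((A.filter (fun a => β ≤ x a)).card : ℝ) := by
  have h2 : ∑ a ∈ A, x a ≤ ∑ a ∈ A, (β + if β ≤ x a then (1 : ℝ) else 0) := by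
    apply Finset.sum_le_sum
    intro a _
    have := hx1 a
    split_ifs with c
    · linarith
    · push Not at c; linarith
  rw [Finset.sum_add_distrib, Finset.sum_const, nsmul_eq_mul, ← Finset.sum_filter,
    Finset.sum_const, nsmul_eq_mul, mul_one] at h2
  linarith

/-- two elements at large distance -/
lemma spread {N : ℕ} {A : Finset (Fin N)} {c : ℕ} (h : c + 2 ≤ A.card) :
    ∃ j ∈ A, ∃ l ∈ A, j < l ∧ c ≤ (Finset.Ioo j l).card := by
  have hne : A.Nonempty := Finset.card_pos.1 (by omega)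
  refine ⟨A.min' hne, A.min'_mem hne, A.max' hne, A.max'_mem hne, ?_, ?_⟩
  · apply Finset.min'_lt_max'_of_card
    omega
  · have h1 : A ⊆ Finset.Icc (A.min' hne) (A.max' hne) := by
      intro a ha
      rw [Finset.mem_Icc]
      exact ⟨A.min'_le a ha, A.le_max' a ha⟩
    have h2 := Finset.card_le_card h1
    rw [Fin.card_Icc] at h2
    rw [Fin.card_Ioo]
    omega

/-! ### the theorem -/

theorem no_fraction {n : ℕ} {M : (Fin n → Density) → Fin n → Set unitInterval}
    (hM : IsMechanismD M) {p q : Fin n} (hpq : p ≠ q) (hp : TruthfulFor M p)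
    (hq : TruthfulFor M q) (ho : PositionOblivious M q) {α : ℝ} (hα : 0 < α)
    (Hp : ∀ f g, α * value f univ ≤ value f (M (prof p q f g) p))
    (Hq : ∀ f g, α * value g univ ≤ value g (M (prof p q f g) q)) : False := by
  classical
  have one_val : ∀ Z : Set unitInterval, value oneD Z = vol Z := by
    intro Z
    simp only [value, oneD, integral_const, smul_eq_mul, mul_one]
    rw [measureReal_restrict_apply MeasurableSet.univ, univ_inter]
  have vol_univ : vol univ = 1 := by simp [vol]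
  have vol_mono : ∀ {A B : Set unitInterval}, A ⊆ B → vol A ≤ vol B :=
    fun hAB => measureReal_mono hAB (measure_ne_top _ _)
  have hα1 : α ≤ 1 := by
    have := Hp oneD oneD
    rw [one_val, one_val, vol_univ] at this
    have h2 := vol_mono (subset_univ (M (prof p q oneD oneD) p))
    rw [vol_univ] at h2
    linarith
  obtain ⟨β, hβ⟩ : ∃ β, β = α / 2 := ⟨_, rfl⟩
  have h : 0 < β := by rw [hβ]; linarith
  have h1 : β ≤ 1 / 2 := by rw [hβ]; linarith
  have hαβ : α = 2 * β := by rw [hβ]; ring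
  obtain ⟨c, hc⟩ := exists_nat_ge (2 / β)
  obtain ⟨N, hN⟩ := exists_nat_ge (((c : ℝ) + 2) / β)
  rw [div_le_iff₀ h] at hc hN
  have c1 : 1 ≤ c := by
    by_contra hcon
    have : c = 0 := by omega
    rw [this] at hc
    norm_num at hc
  obtain ⟨L, hLdef⟩ : ∃ L, L = 1 + 3 / (β * sz β N) := ⟨_, rfl⟩
  have hszN := sz_pos h N
  have hL1 : L - 1 = 3 / (β * sz β N) := by rw [hLdef]; ring
  have hL : 1 < L := by
    have : 0 < 3 / (β * sz β N) := by positivity
    linarith
  have hLpos : ∀ i : ℕ, 0 < L ^ i := fun i => pow_pos (by linarith) i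
  -- the shells
  obtain ⟨μ, hμ', hm'⟩ := exists_lab isPiece_univ (wt β N) (wt_nonneg h h1) (by
    rw [vol_univ, Fintype.sum_option]
    simp only [wt]
    ring)
  have hμ : IsLab μ := by
    intro a
    have := hμ' a
    rwa [inter_univ] at this
  have hm : ∀ a, vol (μ ⁻¹' {a}) = wt β N a := by
    intro a
    have := hm' a
    rwa [inter_univ] at this
  have hms : ∀ a : Fin N, vol (μ ⁻¹' {some a}) = sz β a := fun a => hm (some a)
  have spos : ∀ a : Fin N, 0 < sz β a := fun a => sz_pos h a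
  obtain ⟨v, hv⟩ : ∃ v : Fin N → ℝ, v = fun a : Fin N => L ^ (a : ℕ) / sz β a := ⟨_, rfl⟩
  have vpos : ∀ a, 0 < v a := by
    intro a
    rw [hv]
    exact div_pos (hLpos _) (spos a)
  have hN0 : 0 < N := by
    rcases Nat.eq_zero_or_pos N with h0 | h0
    · rw [h0] at hN
      norm_num at hN
      have : (0 : ℝ) ≤ c := Nat.cast_nonneg c
      linarith
    · exact h0
  have ex1 : ∀ {w : Fin N → ℝ}, (∀ a, 0 < w a) →
      ∃ a, 0 < w a ∧ 0 < vol (μ ⁻¹' {some a}) := by
    intro w hw
    exact ⟨⟨0, hN0⟩, hw _, by rw [hms]; exact spos _⟩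
  -- the first test
  have w1pos : ∀ a : Fin N, 0 < 1 / sz β a := fun a => one_div_pos.2 (spos a)
  obtain ⟨g0, hg0⟩ : ∃ g0, g0 = den hμ (fun a => (vpos a).le) (ex1 vpos) := ⟨_, rfl⟩
  obtain ⟨ft, hft⟩ : ∃ ft, ft = den hμ (fun a => (w1pos a).le) (ex1 w1pos) := ⟨_, rfl⟩
  obtain ⟨X0, hX0⟩ : ∃ X0, X0 = M (prof p q ft g0) p := ⟨_, rfl⟩
  have pX0 : IsPiece X0 := hX0 ▸ hM.piece _ _
  have T1 : 2 * β * ((Finset.univ : Finset (Fin N)).card : ℝ) ≤
      ∑ a : Fin N, 1 / sz β a * vol (μ ⁻¹' {some a} ∩ X0) := by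
    have t := Hp ft g0
    rw [← hX0, hft, value_den _ _ _ MeasurableSet.univ, value_den _ _ _ pX0.measurableSet,
      hαβ] at t
    have e : ∑ a : Fin N, 1 / sz β a * vol (μ ⁻¹' {some a} ∩ univ) =
        ((Finset.univ : Finset (Fin N)).card : ℝ) := by
      rw [Finset.card_eq_sum_ones, Nat.cast_sum]
      apply Finset.sum_congr rfl
      intro a _
      rw [inter_univ, hms, one_div_mul_cancel (spos a).ne', Nat.cast_one]
    rw [e] at t
    exact t
  have x1 : ∀ a : Fin N, 1 / sz β a * vol (μ ⁻¹' {some a} ∩ X0) ≤ 1 := by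
    intro a
    rw [one_div_mul_eq_div, div_le_one (spos a), ← hms a]
    exact vol_mono inter_subset_left
  have K1 := many Finset.univ x1 h.le T1
  have K2 : c + 2 ≤ (Finset.univ.filter
      (fun a : Fin N => β ≤ 1 / sz β a * vol (μ ⁻¹' {some a} ∩ X0))).card := by
    have : ((c + 2 : ℕ) : ℝ) ≤ ((Finset.univ.filter
      (fun a : Fin N => β ≤ 1 / sz β a * vol (μ ⁻¹' {some a} ∩ X0))).card : ℝ) := by
      refine le_trans ?_ K1
      rw [Finset.card_univ, Fintype.card_fin]
      push_cast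
      linarith
    exact_mod_cast this
  obtain ⟨j, hj, l, hl, jl, hjl⟩ := spread K2
  rw [Finset.mem_filter] at hj hl
  have xj : β * sz β j ≤ vol (μ ⁻¹' {some j} ∩ X0) := by
    have := hj.2
    rwa [one_div_mul_eq_div, le_div_iff₀ (spos j)] at this
  have xl : β * sz β l ≤ vol (μ ⁻¹' {some l} ∩ X0) := by
    have := hl.2
    rwa [one_div_mul_eq_div, le_div_iff₀ (spos l)] at this
  -- the second test
  obtain ⟨m, hmdef⟩ : ∃ m : Fin N → ℝ, m = fun a => if a ∈ Finset.Ioo j l then 1 else 0 :=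
    ⟨_, rfl⟩
  have m0 : ∀ a, 0 ≤ m a := by intro a; rw [hmdef]; dsimp only; split_ifs <;> norm_num
  have m1 : ∀ a, m a ≤ 1 := by intro a; rw [hmdef]; dsimp only; split_ifs <;> norm_num
  have mI : ∀ a, a ∈ Finset.Ioo j l → m a = 1 := by
    intro a ha; rw [hmdef]; simp only [ha, if_true]
  have mO : ∀ a, a ∉ Finset.Ioo j l → m a = 0 := by
    intro a ha; rw [hmdef]; simp only [ha, if_false]
  obtain ⟨a0, ha0⟩ : (Finset.Ioo j l).Nonempty := Finset.card_pos.1 (by omega)
  have ex2 : ∀ {w : Fin N → ℝ}, (∀ a, 0 < w a) →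
      ∃ a, 0 < m a * w a ∧ 0 < vol (μ ⁻¹' {some a}) := by
    intro w hw
    exact ⟨a0, by rw [mI a0 ha0, one_mul]; exact hw _, by rw [hms]; exact spos _⟩
  obtain ⟨f0, hf0⟩ : ∃ f0, f0 = den hμ (v := fun a => m a * v a)
    (fun a => mul_nonneg (m0 a) (vpos a).le) (ex2 vpos) := ⟨_, rfl⟩
  obtain ⟨gt, hgt⟩ : ∃ gt, gt = den hμ (v := fun a => m a * (1 / sz β a))
    (fun a => mul_nonneg (m0 a) (w1pos a).le) (ex2 w1pos) := ⟨_, rfl⟩
  obtain ⟨Y0, hY0⟩ : ∃ Y0, Y0 = M (prof p q f0 gt) q := ⟨_, rfl⟩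
  have pY0 : IsPiece Y0 := hY0 ▸ hM.piece _ _
  have sI : ∀ F : Fin N → ℝ, ∑ a, m a * F a = ∑ a ∈ Finset.Ioo j l, F a := by
    intro F
    rw [hmdef]
    simp only [ite_mul, one_mul, zero_mul]
    rw [← Finset.sum_filter]
    congr 1
    ext a
    simp
  have T2 : 2 * β * ((Finset.Ioo j l).card : ℝ) ≤
      ∑ a ∈ Finset.Ioo j l, 1 / sz β a * vol (μ ⁻¹' {some a} ∩ Y0) := by
    have t := Hq f0 gt
    rw [← hY0, hgt, value_den _ _ _ MeasurableSet.univ, value_den _ _ _ pY0.measurableSet,
      hαβ] at t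
    simp only [mul_assoc] at t
    rw [sI, sI] at t
    have e : ∑ a ∈ Finset.Ioo j l, 1 / sz β a * vol (μ ⁻¹' {some a} ∩ univ) =
        ((Finset.Ioo j l).card : ℝ) := by
      rw [Finset.card_eq_sum_ones, Nat.cast_sum]
      apply Finset.sum_congr rfl
      intro a _
      rw [inter_univ, hms, one_div_mul_cancel (spos a).ne', Nat.cast_one]
    rw [e, ← mul_assoc] at t
    exact t
  have y1 : ∀ a : Fin N, 1 / sz β a * vol (μ ⁻¹' {some a} ∩ Y0) ≤ 1 := by
    intro a
    rw [one_div_mul_eq_div, div_le_one (spos a), ← hms a]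
    exact vol_mono inter_subset_left
  have K3 := many (Finset.Ioo j l) y1 h.le T2
  have K4 : 0 + 2 ≤ ((Finset.Ioo j l).filter
      (fun a : Fin N => β ≤ 1 / sz β a * vol (μ ⁻¹' {some a} ∩ Y0))).card := by
    have : ((0 + 2 : ℕ) : ℝ) ≤ (((Finset.Ioo j l).filter
      (fun a : Fin N => β ≤ 1 / sz β a * vol (μ ⁻¹' {some a} ∩ Y0))).card : ℝ) := by
      refine le_trans ?_ K3
      have : (c : ℝ) ≤ ((Finset.Ioo j l).card : ℝ) := by exact_mod_cast hjl
      push_cast
      nlinarith
    exact_mod_cast this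
  obtain ⟨j', hj', k, hk, j'k, -⟩ := spread K4
  rw [Finset.mem_filter, Finset.mem_Ioo] at hj' hk
  have yj : β * sz β j' ≤ vol (μ ⁻¹' {some j'} ∩ Y0) := by
    have := hj'.2
    rwa [one_div_mul_eq_div, le_div_iff₀ (spos j')] at this
  have yk : β * sz β k ≤ vol (μ ⁻¹' {some k} ∩ Y0) := by
    have := hk.2
    rwa [one_div_mul_eq_div, le_div_iff₀ (spos k)] at this
  -- the two realizations
  obtain ⟨ν, ν', n1, n2, n3, n4, n5, n6, n7⟩ :=
    two_realizations h h1 hj'.1.1 j'k hk.1.2 hμ hm pX0 pY0 xj xl yj yk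
  have kI : k ∈ Finset.Ioo j l := Finset.mem_Ioo.2 hk.1
  obtain ⟨f1, hf1⟩ : ∃ f1, f1 = den n1 (v := fun a => m a * v a)
    (fun a => mul_nonneg (m0 a) (vpos a).le)
    ⟨k, by rw [mI k kI, one_mul]; exact vpos k, by rw [n4]; exact spos k⟩ := ⟨_, rfl⟩
  obtain ⟨g1, hg1⟩ : ∃ g1, g1 = den n2 (fun a => (vpos a).le)
    ⟨l, vpos l, (spos l).trans_le ((n6 l le_rfl).trans (vol_mono inter_subset_left))⟩ := ⟨_, rfl⟩
  have hlaw : SameLaw (prof p q f1 g0) (prof p q f0 g1) := by
    intro w
    have key := sameLaw_aux (isLab_prod n1 hμ) (isLab_prod hμ n2) (by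
      rintro ⟨a, b⟩
      have e1 : (fun x => (ν x, μ x)) ⁻¹' {(a, b)} = ν ⁻¹' {a} ∩ μ ⁻¹' {b} := by
        ext x; simp
      have e2 : (fun x => (μ x, ν' x)) ⁻¹' {(a, b)} = μ ⁻¹' {a} ∩ ν' ⁻¹' {b} := by
        ext x; simp
      rw [e1, e2]
      exact n3 a b) (fun r : Option (Fin N) × Option (Fin N) => ∀ i : Fin n,
        (if i = p then onShells (fun a => m a * v a) r.1 else
          if i = q then onShells v r.2 else 1) = w i)
    have e1 : {x : unitInterval | ∀ i, (prof p q f1 g0 i).1 x = w i} =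
        {x : unitInterval | ∀ i : Fin n, (if i = p then onShells (fun a => m a * v a) (ν x) else
          if i = q then onShells v (μ x) else 1) = w i} := by
      ext x
      simp only [mem_ofPred_eq]
      apply forall_congr'
      intro i
      have : (prof p q f1 g0 i).1 x = if i = p then onShells (fun a => m a * v a) (ν x) else
          if i = q then onShells v (μ x) else 1 := by
        unfold prof
        split_ifs
        · rw [hf1]; rfl
        · rw [hg0]; rfl
        · rfl
      rw [this]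
    have e2 : {x : unitInterval | ∀ i, (prof p q f0 g1 i).1 x = w i} =
        {x : unitInterval | ∀ i : Fin n, (if i = p then onShells (fun a => m a * v a) (μ x) else
          if i = q then onShells v (ν' x) else 1) = w i} := by
      ext x
      simp only [mem_ofPred_eq]
      apply forall_congr'
      intro i
      have : (prof p q f0 g1 i).1 x = if i = p then onShells (fun a => m a * v a) (μ x) else
          if i = q then onShells v (ν' x) else 1 := by
        unfold prof
        split_ifs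
        · rw [hf0]; rfl
        · rw [hg1]; rfl
        · rfl
      rw [this]
    rw [e1, e2]
    exact key
  -- the pieces at the first realization
  obtain ⟨X, hX⟩ : ∃ X, X = M (prof p q f1 g0) p := ⟨_, rfl⟩
  obtain ⟨Y, hY⟩ : ∃ Y, Y = M (prof p q f1 g0) q := ⟨_, rfl⟩
  have pX : IsPiece X := hX ▸ hM.piece _ _
  have pY : IsPiece Y := hY ▸ hM.piece _ _
  have dXY : Disjoint X Y := by rw [hX, hY]; exact hM.disj _ _ _ hpq
  have vX : value f1 X0 ≤ value f1 X := by
    have := hp (prof p q f1 g0) ft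
    rwa [update_p, prof_p, ← hX, ← hX0] at this
  have vY : value g1 Y0 ≤ value g0 Y := by
    have a1 := ho _ _ hlaw
    rw [prof_q hpq, prof_q hpq, ← hY] at a1
    have a2 := hq (prof p q f0 g1) gt
    rw [update_q hpq, prof_q hpq, ← hY0] at a2
    rw [a1]
    exact a2
  rw [hf1, value_den _ _ _ pX0.measurableSet, value_den _ _ _ pX.measurableSet] at vX
  rw [hg1, hg0, value_den _ _ _ pY0.measurableSet, value_den _ _ _ pY.measurableSet] at vY
  have LX := lex_aux (s := fun a : Fin N => sz β a)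
    (x := fun a : Fin N => vol (ν ⁻¹' {some a} ∩ X)) hL spos
    (fun a => by
      have := vol_mono (inter_subset_left (s := ν ⁻¹' {some a}) (t := X))
      rwa [n4 a] at this) m0 m1 (mI k kI)
    (by
      refine le_trans ?_ (le_trans vX (le_of_eq ?_))
      · apply Finset.sum_le_sum
        intro a _
        split_ifs with ka
        · by_cases ha : a ∈ Finset.Ioo j l
          · rw [mI a ha, one_mul, one_mul]
            have t := n5 a ka (Finset.mem_Ioo.1 ha).2
            have t2 : v a * sz β a = L ^ (a : ℕ) := by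
              rw [hv]; exact div_mul_cancel₀ _ (spos a).ne'
            rw [← t2]
            exact mul_le_mul_of_nonneg_left t (vpos a).le
          · rw [mO a ha]
            simp
        · exact mul_nonneg (mul_nonneg (m0 a) (vpos a).le) measureReal_nonneg
      · rw [hv])
  have LY := lex_aux (s := fun a : Fin N => sz β a) (m := fun _ => 1)
    (x := fun a : Fin N => vol (μ ⁻¹' {some a} ∩ Y)) (k := l) hL spos
    (fun a => by
      have := vol_mono (inter_subset_left (s := μ ⁻¹' {some a}) (t := Y))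
      rwa [hms a] at this) (fun _ => zero_le_one) (fun _ => le_rfl) rfl
    (by
      refine le_trans ?_ (le_trans vY (le_of_eq ?_))
      · apply Finset.sum_le_sum
        intro a _
        split_ifs with la
        · have t := n6 a la
          have t2 : v a * sz β a = L ^ (a : ℕ) := by
            rw [hv]; exact div_mul_cancel₀ _ (spos a).ne'
          rw [one_mul, ← t2]
          exact mul_le_mul_of_nonneg_left t (vpos a).le
        · exact mul_nonneg (vpos a).le measureReal_nonneg
      · rw [hv]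
        simp only [one_mul])
  -- the overlap of the two top shells
  have RX : vol (ν ⁻¹' {some k} \ X) = sz β k - vol (ν ⁻¹' {some k} ∩ X) := by
    have := measureReal_inter_add_sdiff (μ := (volume : Measure unitInterval))
      (s := ν ⁻¹' {some k}) (t := X) pX.measurableSet
    rw [← n4 k]
    linarith
  have RY : vol (μ ⁻¹' {some l} \ Y) = sz β l - vol (μ ⁻¹' {some l} ∩ Y) := by
    have := measureReal_inter_add_sdiff (μ := (volume : Measure unitInterval))
      (s := μ ⁻¹' {some l}) (t := Y) pY.measurableSet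
    rw [← hms l]
    linarith
  have R1 : vol (ν ⁻¹' {some k} ∩ μ ⁻¹' {some l}) ≤
      vol (ν ⁻¹' {some k} \ X) + vol (μ ⁻¹' {some l} \ Y) := by
    refine le_trans (vol_mono ?_) (measureReal_union_le _ _)
    rintro x ⟨h2, h3⟩
    by_cases h4 : x ∈ X
    · right
      exact ⟨h3, fun h5 => Set.disjoint_left.1 dXY h4 h5⟩
    · left
      exact ⟨h2, h4⟩
  rw [n7, RX, RY] at R1
  have hsk : sz β k ≤ 1 := by
    have := vol_mono (subset_univ (ν ⁻¹' {some k}))
    rwa [n4, vol_univ] at this
  have hsl : sz β l ≤ 1 := by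
    have := vol_mono (subset_univ (μ ⁻¹' {some l}))
    rwa [hms, vol_univ] at this
  have hsN : sz β N ≤ sz β l := sz_anti h h1 l.2.le
  have hL1' : 0 < L - 1 := by linarith
  have F1 : β * sz β l * (L - 1) ≤ 2 := by
    have a1 : sz β k / (L - 1) * (L - 1) = sz β k := div_mul_cancel₀ _ hL1'.ne'
    have a2 : sz β l / (L - 1) * (L - 1) = sz β l := div_mul_cancel₀ _ hL1'.ne'
    have a3 : β * sz β l * (L - 1) ≤ (sz β k / (L - 1) + sz β l / (L - 1)) * (L - 1) :=
      mul_le_mul_of_nonneg_right (by linarith) hL1'.le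
    rw [add_mul, a1, a2] at a3
    linarith
  have F2 : β * sz β N * (L - 1) = 3 := by
    rw [hL1]
    field_simp
  have F3 : β * sz β N * (L - 1) ≤ β * sz β l * (L - 1) :=
    mul_le_mul_of_nonneg_right (mul_le_mul_of_nonneg_left hsN h.le) hL1'.le
  linarith

end Pool.Agent.Helper95.CK
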